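import Mathlib

/-!
# Congruence topologies and abelian subgroups: the abstract part
-/

set_option autoImplicit false

namespace Pool.Agent.H19W.CB

/-- In a finitely generated abelian group, the elements with a multiple in a subgroup `S` have a uniform
multiple in `S`. -/
theorem exp_lemma {P : Type*} [AddCommGroup P] [Module.Finite ℤ P] (S : AddSubgroup P) :
    ∃ M : ℕ, 1 ≤ M ∧ ∀ p : P, (∃ k : ℕ, 1 ≤ k ∧ k • p ∈ S) → M • p ∈ S := by
  classical
  let N : Submodule ℤ P := AddSubgroup.toIntSubmodule S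
  let T : Submodule ℤ (P ⧸ N) := Submodule.torsion ℤ (P ⧸ N)
  have hT : Module.IsTorsion ℤ T := Submodule.torsion_isTorsion
  obtain ⟨a, ha1, ha2⟩ := Submodule.annihilator_top_inter_nonZeroDivisors hT
  have ha0 : a ≠ 0 := nonZeroDivisors.ne_zero ha2
  refine ⟨a.natAbs, by omega, fun p ⟨k, hk, hkp⟩ => ?_⟩
  have h1 : N.mkQ p ∈ T := by
    rw [Submodule.mem_torsion_iff]
    refine ⟨⟨(k : ℤ), mem_nonZeroDivisors_of_ne_zero (by omega)⟩, ?_⟩
    show (k : ℤ) • N.mkQ p = 0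
    rw [← map_smul, Submodule.mkQ_apply, Submodule.Quotient.mk_eq_zero]
    show (k : ℤ) • p ∈ S
    rwa [natCast_zsmul]
  have h2 := Submodule.mem_annihilator.mp ha1 (⟨_, h1⟩ : T) trivial
  have h3 : a • N.mkQ p = 0 := congrArg Subtype.val h2
  rw [← map_smul, Submodule.mkQ_apply, Submodule.Quotient.mk_eq_zero] at h3
  have h4 : a • p ∈ S := h3
  rcases Int.natAbs_eq a with h | h
  · rw [h, natCast_zsmul] at h4; exact h4
  · rw [h, neg_smul, natCast_zsmul] at h4
    exact (neg_mem_iff).mp h4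

variable {G : Type*} [Group G] {ι : Type*}

/-- Every subgroup `U` such that all elements of `A` have a power in `U` contains `A ⊓ Γ i` for some `i`. -/
def Good (Γ : ι → Subgroup G) (A : Subgroup G) : Prop :=
  ∀ U : Subgroup G, (∀ g ∈ A, ∃ m : ℕ, 1 ≤ m ∧ g ^ m ∈ U) → ∃ i, A ⊓ Γ i ≤ U

/-- one layer -/
theorem step (Γ : ι → Subgroup G) (hdir : ∀ i j, ∃ k, Γ k ≤ Γ i ∧ Γ k ≤ Γ j)
    {P : Type*} [AddCommGroup P] [Module.Finite ℤ P] (A B : Subgroup G) (hBA : B ≤ A)
    (t : G → P) (ht : ∀ g ∈ A, ∀ h ∈ A, t (g * h) = t g + t h)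
    (hker : ∀ g ∈ A, t g = 0 → g ∈ B)
    (hc : ∀ M : ℕ, 1 ≤ M → ∃ i, ∀ g ∈ A, g ∈ Γ i → ∃ p, t g = M • p)
    (hB : Good Γ B) : Good Γ A := by
  intro U hU
  have t1 : t 1 = 0 := by
    have := ht 1 A.one_mem 1 A.one_mem
    rw [mul_one] at this
    simpa using this
  have tinv : ∀ g ∈ A, t g⁻¹ = - t g := by
    intro g hg
    have := ht g hg g⁻¹ (A.inv_mem hg)
    rw [mul_inv_cancel, t1] at this
    exact (neg_eq_of_add_eq_zero_right this.symm).symm
  have tpow : ∀ g ∈ A, ∀ m : ℕ, t (g ^ m) = m • t g := by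
    intro g hg m
    induction m with
    | zero => rw [pow_zero, t1, zero_smul]
    | succ m ih => rw [pow_succ, ht _ (A.pow_mem hg m) _ hg, ih, succ_nsmul]
  obtain ⟨i1, h1⟩ := hB U (fun g hg => hU g (hBA hg))
  let S : AddSubgroup P :=
    { carrier := {p | ∃ u, u ∈ A ∧ u ∈ U ∧ u ∈ Γ i1 ∧ t u = p}
      add_mem' := by
        rintro _ _ ⟨u, hu1, hu2, hu3, rfl⟩ ⟨v, hv1, hv2, hv3, rfl⟩
        exact ⟨u * v, A.mul_mem hu1 hv1, U.mul_mem hu2 hv2, (Γ i1).mul_mem hu3 hv3, ht u hu1 v hv1⟩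
      zero_mem' := ⟨1, A.one_mem, U.one_mem, (Γ i1).one_mem, t1⟩
      neg_mem' := by
        rintro _ ⟨u, hu1, hu2, hu3, rfl⟩
        exact ⟨u⁻¹, A.inv_mem hu1, U.inv_mem hu2, (Γ i1).inv_mem hu3, tinv u hu1⟩ }
  obtain ⟨M, hM, hS⟩ := exp_lemma S
  obtain ⟨i2, h2⟩ := hc M hM
  obtain ⟨k, hk1, hk2⟩ := hdir i1 i2
  refine ⟨k, ?_⟩
  rintro g ⟨hgA, hgk⟩
  obtain ⟨p, hp⟩ := h2 g hgA (hk2 hgk)
  obtain ⟨m, hm, hmU⟩ := hU g hgA
  have h3 : M • p ∈ S := by
    apply hS
    refine ⟨m * M, Nat.mul_pos hm hM, g ^ m, A.pow_mem hgA m, hmU, (Γ i1).pow_mem (hk1 hgk) m, ?_⟩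
    rw [tpow g hgA, hp, mul_smul]
  obtain ⟨u, hu1, hu2, hu3, hu4⟩ := h3
  have h4 : g * u⁻¹ ∈ B := by
    apply hker _ (A.mul_mem hgA (A.inv_mem hu1))
    rw [ht g hgA _ (A.inv_mem hu1), tinv u hu1, hp, hu4, add_neg_cancel]
  have h5 : g * u⁻¹ ∈ U := h1 ⟨h4, (Γ i1).mul_mem (hk1 hgk) ((Γ i1).inv_mem hu3)⟩
  have := U.mul_mem h5 hu2
  rwa [inv_mul_cancel_right] at this

theorem good_of_le {Γ : ι → Subgroup G} {B : Subgroup G} [Nonempty ι] (h : B ≤ ⊥) : Good Γ B := by
  intro U _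
  obtain ⟨i⟩ := ‹Nonempty ι›
  refine ⟨i, fun g hg => ?_⟩
  have : g = 1 := Subgroup.mem_bot.mp (h hg.1)
  rw [this]
  exact U.one_mem

/-- a descending filtration with torsion-free quotients of a finitely generated abelian group -/
theorem term_aux {P : Type*} [AddCommGroup P] [Module.Finite ℤ P] (M : ℕ → Submodule ℤ P)
    (hanti : ∀ i, M (i + 1) ≤ M i)
    (hpure : ∀ i, ∀ p ∈ M i, ∀ k : ℤ, k ≠ 0 → k • p ∈ M (i + 1) → p ∈ M (i + 1))
    (hbot : ∀ p, (∀ i, p ∈ M i) → p = 0) : ∃ c, M c = ⊥ := by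
  have hle : ∀ i j, i ≤ j → M j ≤ M i := fun i j h => antitone_nat_of_succ_le hanti h
  obtain ⟨c, hc⟩ : ∃ c, ∀ i, Module.finrank ℤ (M c) ≤ Module.finrank ℤ (M i) := by
    have := WellFounded.min_mem (wellFounded_lt (α := ℕ)) (Set.range fun i => Module.finrank ℤ (M i))
      ⟨_, 0, rfl⟩
    obtain ⟨c, hc⟩ := this
    refine ⟨c, fun i => ?_⟩
    have h2 := WellFounded.not_lt_min (wellFounded_lt (α := ℕ))
      (Set.range fun i => Module.finrank ℤ (M i)) (x := Module.finrank ℤ (M i)) ⟨i, rfl⟩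
    simp only at hc
    rw [hc]
    exact not_lt.mp h2
  refine ⟨c, ?_⟩
  rw [eq_bot_iff]
  intro p hp
  rw [Submodule.mem_bot]
  apply hbot
  -- every element of `M c` has a multiple in `M i`
  have htor : ∀ i, c ≤ i → ∀ p ∈ M c, ∃ k : ℤ, k ≠ 0 ∧ k • p ∈ M i := by
    intro i hi p hp
    let N : Submodule ℤ (M c) := (M i).comap (M c).subtype
    have e : N ≃ₗ[ℤ] M i := Submodule.comapSubtypeEquivOfLe (hle c i hi)
    have h1 : Module.finrank ℤ N = Module.finrank ℤ (M i) := LinearEquiv.finrank_eq e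
    have h2 := Submodule.finrank_quotient_add_finrank N
    have h3 : Module.finrank ℤ (M c ⧸ N) = 0 := by
      have := hc i
      omega
    rw [Module.finrank_eq_zero_iff_isTorsion] at h3
    obtain ⟨a, ha⟩ := @h3 (N.mkQ ⟨p, hp⟩)
    refine ⟨a.1, nonZeroDivisors.ne_zero a.2, ?_⟩
    have h4 : N.mkQ (a.1 • ⟨p, hp⟩) = 0 := by
      rw [map_smul]
      exact ha
    rw [Submodule.mkQ_apply, Submodule.Quotient.mk_eq_zero] at h4
    exact h4
  have hall : ∀ i, c ≤ i → ∀ p ∈ M c, p ∈ M i := by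
    intro i hi
    induction i, hi using Nat.le_induction with
    | base => exact fun p hp => hp
    | succ i hi ih =>
      intro p hp
      obtain ⟨k, hk, hkp⟩ := htor (i + 1) (by omega) p hp
      exact hpure i p (ih p hp) k hk hkp
  intro i
  rcases le_total c i with h | h
  · exact hall i h p hp
  · exact hle i c h hp

/-- the filtration of a finitely generated abelian subgroup stops -/
theorem term_lemma (A : Subgroup G) (hfg : A.FG) (hcomm : ∀ a ∈ A, ∀ b ∈ A, a * b = b * a)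
    (O : ℕ → Subgroup G) (hanti : ∀ i, O (i + 1) ≤ O i)
    (hpure : ∀ i, ∀ g ∈ A, g ∈ O i → ∀ k : ℕ, 1 ≤ k → g ^ k ∈ O (i + 1) → g ∈ O (i + 1))
    (hbot : ∀ g, (∀ i, g ∈ O i) → g = 1) : ∃ c, A ⊓ O c = ⊥ := by
  letI : CommGroup A := { (inferInstance : Group A) with
    mul_comm := fun a b => Subtype.ext (hcomm a.1 a.2 b.1 b.2) }
  have hA : Group.FG A := (Group.fg_iff_subgroup_fg A).mpr hfg
  have hA' : AddGroup.FG (Additive A) := inferInstance
  haveI : Module.Finite ℤ (Additive A) := Module.Finite.iff_addGroup_fg.mpr hA'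
  let M : ℕ → Submodule ℤ (Additive A) := fun i =>
    AddSubgroup.toIntSubmodule (Subgroup.toAddSubgroup ((O i).subgroupOf A))
  have hmem : ∀ i (a : Additive A), a ∈ M i ↔ ((Additive.toMul a : A) : G) ∈ O i :=
    fun i a => Iff.rfl
  obtain ⟨c, hc⟩ := term_aux M (fun i a ha => hanti i ha) (fun i p hp k hk hkp => by
      rw [hmem] at hp hkp ⊢
      have h1 : ((Additive.toMul (k • p) : A) : G) = ((Additive.toMul p : A) : G) ^ k := rfl
      rw [h1] at hkp
      rcases Int.natAbs_eq k with h | h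
      · rw [h, zpow_natCast] at hkp
        exact hpure i _ (Additive.toMul p).2 hp _ (by omega) hkp
      · rw [h, zpow_neg, zpow_natCast] at hkp
        exact hpure i _ (Additive.toMul p).2 hp _ (by omega) ((O (i+1)).inv_mem_iff.mp hkp))
    (fun p hp => by
      have := hbot ((Additive.toMul p : A) : G) (fun i => hp i)
      have h2 : Additive.toMul p = 1 := Subtype.ext this
      exact h2)
  refine ⟨c, ?_⟩
  rw [eq_bot_iff]
  rintro g ⟨hgA, hgO⟩
  have h1 : (Additive.ofMul (⟨g, hgA⟩ : A)) ∈ M c := hgO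
  rw [hc, Submodule.mem_bot] at h1
  have h2 : (⟨g, hgA⟩ : A) = 1 := h1
  exact Subgroup.mem_bot.mpr (congrArg Subtype.val h2)

/-- from finitely generated abelian subgroups to finite extensions -/
theorem virt [Nonempty ι] (Γ : ι → Subgroup G) (hdir : ∀ i j, ∃ k, Γ k ≤ Γ i ∧ Γ k ≤ Γ j)
    (hn : ∀ i, (Γ i).Normal) (hbot : ∀ g, (∀ i, g ∈ Γ i) → g = 1)
    (hab : ∀ A : Subgroup G, A.FG → (∀ a ∈ A, ∀ b ∈ A, a * b = b * a) → Good Γ A)
    (H A : Subgroup G) (hAH : A ≤ H) (hi : A.relIndex H ≠ 0) (hfg : A.FG)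
    (hcomm : ∀ a ∈ A, ∀ b ∈ A, a * b = b * a) : Good Γ H := by
  have hdir' : Directed (· ≥ ·) Γ := fun i j => by
    obtain ⟨k, h1, h2⟩ := hdir i j
    exact ⟨k, h1, h2⟩
  -- every element of `H` outside of `A` can be separated from `A`
  have key : ∀ h ∈ H, h ∉ A → ∃ i, ∀ a ∈ A, h * a ∉ Γ i := by
    intro h hh hhA
    by_contra hcon
    push Not at hcon
    have hc : ∀ b ∈ A, h * b = b * h := by
      intro b hb
      have : h * b * h⁻¹ * b⁻¹ = 1 := by
        apply hbot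
        intro i
        obtain ⟨a, ha, hai⟩ := hcon i
        have e : h * b * h⁻¹ * b⁻¹ = (h * a) * (b * (h * a)⁻¹ * b⁻¹) := by
          have : a * b = b * a := hcomm a ha b hb
          calc h * b * h⁻¹ * b⁻¹ = h * (b * a) * a⁻¹ * h⁻¹ * b⁻¹ := by group
            _ = h * (a * b) * a⁻¹ * h⁻¹ * b⁻¹ := by rw [this]
            _ = _ := by group
        rw [e]
        exact (Γ i).mul_mem hai ((hn i).conj_mem _ ((Γ i).inv_mem hai) b)
      calc h * b = (h * b * h⁻¹ * b⁻¹) * (b * h) := by group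
        _ = b * h := by rw [this, one_mul]
    let C : Subgroup G := Subgroup.closure (insert h (A : Set G))
    have hAC : A ≤ C := fun a ha => Subgroup.subset_closure (Set.mem_insert_of_mem _ ha)
    have hhC : h ∈ C := Subgroup.subset_closure (Set.mem_insert _ _)
    have hgen : ∀ a ∈ insert h (A : Set G), ∀ b ∈ insert h (A : Set G), a * b = b * a := by
      rintro a (rfl | ha) b (rfl | hb)
      · rfl
      · exact hc b hb
      · exact (hc a ha).symm
      · exact hcomm a ha b hb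
    have hCcomm : ∀ a ∈ C, ∀ b ∈ C, a * b = b * a := by
      have h1 : ∀ a ∈ insert h (A : Set G), ∀ b ∈ C, a * b = b * a := by
        intro a ha b hb
        have : C ≤ Subgroup.centralizer {a} := by
          rw [Subgroup.closure_le]
          intro x hx
          rw [SetLike.mem_coe, Subgroup.mem_centralizer_singleton_iff]
          exact hgen x hx a ha
        exact ((Subgroup.mem_centralizer_singleton_iff).mp (this hb)).symm
      intro a ha b hb
      have : C ≤ Subgroup.centralizer {b} := by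
        rw [Subgroup.closure_le]
        intro x hx
        rw [SetLike.mem_coe, Subgroup.mem_centralizer_singleton_iff]
        exact h1 x hx b hb
      exact (Subgroup.mem_centralizer_singleton_iff).mp (this ha)
    have hCfg : C.FG := by
      have : C = Subgroup.closure {h} ⊔ A := by
        rw [show C = Subgroup.closure (insert h (A : Set G)) from rfl, Set.insert_eq,
          Subgroup.closure_union, Subgroup.closure_eq]
      rw [this]
      obtain ⟨S, hS⟩ := hfg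
      classical
      exact ⟨insert h S, by rw [← hS, Finset.coe_insert, Set.insert_eq, Subgroup.closure_union]⟩
    have hpow : ∀ g ∈ C, ∃ m : ℕ, 1 ≤ m ∧ g ^ m ∈ A := by
      intro g hg
      obtain ⟨m, hm, -, hm2⟩ := Subgroup.exists_pow_mem_of_relIndex_ne_zero hi
        ((show C ≤ H by
          rw [Subgroup.closure_le]
          rintro x (rfl | hx)
          · exact hh
          · exact hAH hx) hg)
      exact ⟨m, hm, hm2.1⟩
    obtain ⟨i, hi2⟩ := hab C hCfg hCcomm A hpow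
    obtain ⟨a, ha, hai⟩ := hcon i
    have h3 : h * a ∈ A := hi2 ⟨C.mul_mem hhC (hAC ha), hai⟩
    apply hhA
    have := A.mul_mem h3 (A.inv_mem ha)
    rwa [mul_inv_cancel_right] at this
  -- a common index
  have hsep : ∃ i, H ⊓ Γ i ≤ A := by
    have hfin : Finite (H ⧸ A.subgroupOf H) := by
      have : (A.subgroupOf H).FiniteIndex := ⟨hi⟩
      infer_instance
    have hch : ∀ c : H ⧸ A.subgroupOf H, ∃ i, (c.out : G) ∉ A → ∀ a ∈ A, (c.out : G) * a ∉ Γ i := by
      intro c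
      by_cases h : (c.out : G) ∈ A
      · obtain ⟨i⟩ := ‹Nonempty ι›
        exact ⟨i, fun h' => absurd h h'⟩
      · obtain ⟨i, hi⟩ := key c.out c.out.2 h
        exact ⟨i, fun _ => hi⟩
    choose f hf using hch
    obtain ⟨z, hz⟩ := hdir'.finite_le f
    refine ⟨z, ?_⟩
    rintro g ⟨hgH, hgz⟩
    let c : H ⧸ A.subgroupOf H := QuotientGroup.mk ⟨g, hgH⟩
    have h1 : (c.out)⁻¹ * ⟨g, hgH⟩ ∈ A.subgroupOf H := by
      rw [← QuotientGroup.eq]
      exact QuotientGroup.out_eq' c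
    have h2 : (c.out : G)⁻¹ * g ∈ A := h1
    by_cases h : (c.out : G) ∈ A
    · have := A.mul_mem h h2
      rwa [mul_inv_cancel_left] at this
    · exfalso
      have h3 := hf c h _ h2
      rw [mul_inv_cancel_left] at h3
      exact h3 (hz c hgz)
  intro U hU
  obtain ⟨i1, h1⟩ := hsep
  obtain ⟨i2, h2⟩ := hab A hfg hcomm U (fun g hg => hU g (hAH hg))
  obtain ⟨k, hk1, hk2⟩ := hdir i1 i2
  exact ⟨k, fun g hg => h2 ⟨h1 ⟨hg.1, hk1 hg.2⟩, hk2 hg.2⟩⟩

end Pool.Agent.H19W.CB
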