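import Pool.Agent.W401.Cheb.Main

/-!
# Units of number fields: powers are detected by congruences (Chevalley)
-/

set_option autoImplicit false

namespace Pool.Agent.H19W.CB

open NumberField Polynomial Pool.Agent.W401.Cheb

/-- a Galois extension of `ℚ` which contains `K` and some roots -/
theorem exists_ext (K : Type) [Field K] [NumberField K] (m : ℕ) (hm : m ≠ 0) (u : K) :
    ∃ (N : Type) (_ : Field N) (_ : NumberField N) (_ : IsGalois ℚ N) (j : K →+* N) (ζ v : N),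
      IsPrimitiveRoot ζ m ∧ v ^ m = j u := by
  set P : K[X] := cyclotomic m K * (X ^ m - C u) with hP
  have h2 : (cyclotomic m K).Monic := cyclotomic.monic m K
  have h3 : (X ^ m - C u : K[X]).Monic := monic_X_pow_sub_C u hm
  have hP0 : P ≠ 0 := mul_ne_zero h2.ne_zero h3.ne_zero
  let E := P.SplittingField
  have : NumberField E := NumberField.of_module_finite K E
  have hs : (P.map (algebraMap K E)).Splits := SplittingField.splits P
  have hP0' : P.map (algebraMap K E) ≠ 0 := by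
    rwa [Ne, Polynomial.map_eq_zero]
  have d2 : cyclotomic m K ∣ P := ⟨_, rfl⟩
  have d3 : (X ^ m - C u : K[X]) ∣ P := ⟨cyclotomic m K, by rw [hP]; ring⟩
  have s2 := hs.of_dvd hP0' (Polynomial.map_dvd (algebraMap K E) d2)
  have s3 := hs.of_dvd hP0' (Polynomial.map_dvd (algebraMap K E) d3)
  obtain ⟨z, hz⟩ : ∃ z : E, IsPrimitiveRoot z m := by
    obtain ⟨z, hz⟩ := s2.exists_eval_eq_zero (by
      rw [degree_map, degree_cyclotomic]
      exact_mod_cast (Nat.totient_pos.2 (Nat.pos_of_ne_zero hm)).ne')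
    refine ⟨z, ?_⟩
    rw [map_cyclotomic] at hz
    have : NeZero (m : E) := ⟨by exact_mod_cast hm⟩
    exact isRoot_cyclotomic_iff.1 hz
  obtain ⟨v, hv⟩ : ∃ v : E, v ^ m = algebraMap K E u := by
    obtain ⟨v, hv⟩ := s3.exists_eval_eq_zero (by
      rw [degree_map, degree_X_pow_sub_C (Nat.pos_of_ne_zero hm)]
      exact_mod_cast hm)
    refine ⟨v, ?_⟩
    simpa [sub_eq_zero] using hv
  let Ω := AlgebraicClosure E
  let N := IntermediateField.normalClosure ℚ E Ω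
  have : NumberField N := ⟨⟩
  let k : E →ₐ[ℚ] N := IsScalarTower.toAlgHom ℚ E N
  have halg : (inferInstance : Algebra ℚ N) = DivisionRing.toRatAlgebra := Subsingleton.elim _ _
  refine ⟨N, inferInstance, inferInstance, ?_, (k : E →+* N).comp (algebraMap K E), k z, k v, ?_, ?_⟩
  · have a1 : Algebra.IsAlgebraic ℚ Ω := Algebra.IsAlgebraic.trans ℚ E Ω
    have a2 : IsAlgClosure ℚ Ω := ⟨inferInstance, a1⟩
    have a3 : Normal ℚ Ω := IsAlgClosure.normal ℚ Ω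
    have a4 : Normal ℚ N := normalClosure.normal ℚ E Ω
    have h : IsGalois ℚ N := ⟨⟩
    convert h
  · exact hz.map_of_injective (f := k) k.injective
  · rw [← map_pow, hv]
    rfl

lemma coe_smul {L : Type} [Field L] [NumberField L] (σ : Gal(L/ℚ)) (x : 𝓞 L) :
    ((σ • x : 𝓞 L) : L) = σ (x : L) := rfl

theorem exists_large {N : Type} [Field N] [NumberField N] (z : 𝓞 N) (hz : z ≠ 0) :
    ∃ M : ℕ, ∀ q : ℕ, M < q → ∀ (k : Type) [Field k] [CharP k q] (φ : 𝓞 N →+* k), φ z ≠ 0 := by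
  refine ⟨(Algebra.norm ℤ z).natAbs, fun q hq k _ _ φ h => ?_⟩
  have h1 := W54.ChTor.norm_mem z φ h
  rw [CharP.cast_eq_zero_iff k q] at h1
  have h2 : (Algebra.norm ℤ z).natAbs ≠ 0 := by
    rw [Int.natAbs_ne_zero]
    exact Algebra.norm_ne_zero_iff.2 hz
  have h3 := Nat.le_of_dvd (Nat.pos_of_ne_zero h2) h1
  omega

/-- every automorphism over `K` fixes a root -/
theorem fixes_root {K N : Type} [Field K] [NumberField K] [Field N] [NumberField N] [IsGalois ℚ N]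
    (j : K →+* N) (m : ℕ) (hm : m ≠ 0) (ζ v : N) (hζ : IsPrimitiveRoot ζ m) (u : (𝓞 K)ˣ)
    (hv : v ^ m = j (u : 𝓞 K))
    (H : ∀ (p : ℕ) (_ : Fact p.Prime) (ψ : 𝓞 K →+* AlgebraicClosure (ZMod p)),
      ∃ w : (𝓞 K)ˣ, ψ (u * w ^ m : 𝓞 K) = 1)
    (τ : Gal(N/ℚ)) (hτ : ∀ x : K, τ (j x) = j x) : ∃ w : N, w ^ m = j (u : 𝓞 K) ∧ τ w = w := by
  have hmpos := Nat.pos_of_ne_zero hm
  have : NeZero m := ⟨hm⟩
  have hζi : IsIntegral ℤ ζ := hζ.isIntegral hmpos
  let ζ' : 𝓞 N := ⟨ζ, hζi⟩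
  have hui : IsIntegral ℤ (j (u : 𝓞 K)) := ((u : 𝓞 K).2).map (j.toIntAlgHom)
  have hvi : IsIntegral ℤ v := IsIntegral.of_pow hmpos (by rw [hv]; exact hui)
  let v' : 𝓞 N := ⟨v, hvi⟩
  have hζ' : IsPrimitiveRoot ζ' m := by
    have : IsPrimitiveRoot ((algebraMap (𝓞 N) N) ζ') m := hζ
    exact IsPrimitiveRoot.of_map_of_injective this (RingOfIntegers.coe_injective)
  -- a large prime
  have hz : (∏ l ∈ Finset.Ico 1 m, (ζ' ^ l - 1)) ≠ 0 := by
    rw [Finset.prod_ne_zero_iff]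
    intro l hl h
    rw [Finset.mem_Ico] at hl
    exact hζ'.pow_ne_one_of_pos_of_lt (by omega) hl.2 (sub_eq_zero.mp h)
  obtain ⟨M0, hM0⟩ := exists_large _ hz
  obtain ⟨p, ⟨hp, hx⟩, hpM⟩ := (infinite_frob N τ).exists_gt M0
  have : Fact p.Prime := ⟨hp⟩
  rw [xp, dif_pos hp] at hx
  obtain ⟨⟨φ, hφ⟩⟩ : Nonempty {φ : 𝓞 N →+* AlgebraicClosure (ZMod p) // HasFrob p φ τ} := by
    by_contra hcon
    rw [not_nonempty_iff] at hcon
    exact hx (Nat.card_of_isEmpty)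
  have hφz := hM0 p hpM (AlgebraicClosure (ZMod p)) φ
  rw [map_prod, Finset.prod_ne_zero_iff] at hφz
  let ψ : 𝓞 K →+* AlgebraicClosure (ZMod p) := φ.comp (RingOfIntegers.mapRingHom j)
  obtain ⟨w, hw⟩ := H p ⟨hp⟩ ψ
  have hprim : IsPrimitiveRoot (φ ζ') m := by
    refine IsPrimitiveRoot.mk_of_lt _ hmpos ?_ ?_
    · rw [← map_pow, hζ'.pow_eq_one, map_one]
    · intro l hl1 hl2 h
      apply hφz l (Finset.mem_Ico.mpr ⟨hl1, hl2⟩)
      rw [map_sub, map_pow, h, map_one, sub_self]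
  set c : AlgebraicClosure (ZMod p) := ψ ((w⁻¹ : (𝓞 K)ˣ) : 𝓞 K) with hc
  have hwc : ψ (w : 𝓞 K) * c = 1 := by
    rw [hc, ← map_mul, Units.mul_inv, map_one]
  have hc0 : c ≠ 0 := right_ne_zero_of_mul_eq_one hwc
  have huc : ψ (u : 𝓞 K) = c ^ m := by
    rw [map_mul, map_pow] at hw
    calc ψ (u : 𝓞 K) = ψ (u : 𝓞 K) * (ψ (w : 𝓞 K) * c) ^ m := by rw [hwc, one_pow, mul_one]
      _ = (ψ (u : 𝓞 K) * ψ (w : 𝓞 K) ^ m) * c ^ m := by ring
      _ = c ^ m := by rw [hw, one_mul]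
  have hvu : v' ^ m = RingOfIntegers.mapRingHom j (u : 𝓞 K) := by
    apply RingOfIntegers.coe_injective
    exact hv
  have hφv : (φ v') ^ m = c ^ m := by
    rw [← map_pow, hvu]
    exact huc
  have hφv0 : φ v' ≠ 0 := by
    intro h
    rw [h, zero_pow hm] at hφv
    exact pow_ne_zero m hc0 hφv.symm
  obtain ⟨i, _, hi⟩ := hprim.eq_pow_of_pow_eq_one (ξ := c / φ v') (by
    rw [div_pow, hφv, div_self (pow_ne_zero m hc0)])
  have hw0 : φ (v' * ζ' ^ i) = c := by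
    rw [map_mul, map_pow, hi]
    field_simp
  have hcp : c ^ p = c := by
    have h1 := hφ (RingOfIntegers.mapRingHom j ((w⁻¹ : (𝓞 K)ˣ) : 𝓞 K))
    have h2 : τ • (RingOfIntegers.mapRingHom j ((w⁻¹ : (𝓞 K)ˣ) : 𝓞 K)) =
        RingOfIntegers.mapRingHom j ((w⁻¹ : (𝓞 K)ˣ) : 𝓞 K) := by
      apply RingOfIntegers.coe_injective
      exact hτ _
    rw [h2] at h1
    exact h1.symm
  have hfix : φ (τ • (v' * ζ' ^ i)) = φ (v' * ζ' ^ i) := by
    rw [hφ, hw0, hcp]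
  have hpow : (v * ζ ^ i) ^ m = j (u : 𝓞 K) := by
    rw [mul_pow, hv, ← pow_mul, mul_comm i m, pow_mul, hζ.pow_eq_one, one_pow, mul_one]
  have hju0 : j (u : 𝓞 K) ≠ 0 := by
    rw [Ne, map_eq_zero]
    exact_mod_cast u.ne_zero
  have hvz0 : v * ζ ^ i ≠ 0 := by
    intro h
    rw [h, zero_pow hm] at hpow
    exact hju0 hpow.symm
  refine ⟨v * ζ ^ i, hpow, ?_⟩
  obtain ⟨l, hl, hlz⟩ := hζ.eq_pow_of_pow_eq_one (ξ := τ (v * ζ ^ i) / (v * ζ ^ i)) (by
    rw [div_pow, ← map_pow, hpow, hτ, div_self hju0])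
  have hτw : τ (v * ζ ^ i) = (v * ζ ^ i) * ζ ^ l := by
    rw [hlz, mul_comm (v * ζ ^ i), div_mul_cancel₀ _ hvz0]
  have hτw' : τ • (v' * ζ' ^ i) = (v' * ζ' ^ i) * ζ' ^ l := by
    apply RingOfIntegers.coe_injective
    exact hτw
  rw [hτw', map_mul, hw0] at hfix
  have h1 : (φ ζ') ^ l = 1 := by
    rw [map_pow] at hfix
    exact mul_left_cancel₀ hc0 (by rw [hfix, mul_one])
  have hl0 : l = 0 := by
    by_contra h
    exact hprim.pow_ne_one_of_pos_of_lt h hl h1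
  rw [hτw, hl0, pow_zero, mul_one]

/-- a unit which is an `m`-th power at all primes, up to `m`-th powers of units, is an `M`-th power -/
theorem chev_core (K : Type) [Field K] [NumberField K] (M : ℕ) (hM : 1 ≤ M) :
    ∃ m : ℕ, M ∣ m ∧ m ≠ 0 ∧ ∀ u : (𝓞 K)ˣ,
      (∀ (p : ℕ) (_ : Fact p.Prime) (ψ : 𝓞 K →+* AlgebraicClosure (ZMod p)),
        ∃ w : (𝓞 K)ˣ, ψ (u * w ^ m : 𝓞 K) = 1) → ∃ b : (𝓞 K)ˣ, u = b ^ M := by
  set d := Module.finrank ℚ K with hd
  have hdpos : 0 < d := Module.finrank_pos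
  set b := M + 1 with hb
  set a := b ^ d.factorial with ha
  have ha1 : 2 ≤ a := by
    calc 2 ≤ b := by omega
      _ = b ^ 1 := (pow_one b).symm
      _ ≤ b ^ d.factorial := Nat.pow_le_pow_right (by omega) (Nat.factorial_pos d)
  have hm : M * (a - 1) ≠ 0 := Nat.mul_ne_zero (by omega) (by omega)
  refine ⟨M * (a - 1), Nat.dvd_mul_right _ _, hm, fun u hu => ?_⟩
  set m := M * (a - 1) with hmdef
  have hmpos := Nat.pos_of_ne_zero hm
  have : NeZero m := ⟨hm⟩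
  have hcop : Nat.Coprime b m := by
    rw [hmdef, Nat.coprime_mul_iff_right]
    constructor
    · rw [hb]; simp
    · have h1 : Nat.Coprime a (a - 1) := by
        have : a = (a - 1) + 1 := by omega
        rw [this]; simp
      exact Nat.Coprime.coprime_dvd_left (dvd_pow_self b (Nat.factorial_pos d).ne') h1
  obtain ⟨N, _, _, _, j, ζ, v, hζ, hv⟩ := exists_ext K m hm ((u : 𝓞 K) : K)
  have hju0 : j (u : 𝓞 K) ≠ 0 := by
    rw [Ne, map_eq_zero]
    exact_mod_cast u.ne_zero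
  have key := fixes_root j m hm ζ v hζ u hv hu
  let jj : K →ₐ[ℚ] N := j.toRatAlgHom
  let L : IntermediateField ℚ N := jj.fieldRange
  have hLmem : ∀ τ : Gal(N/ℚ), τ ∈ L.fixingSubgroup ↔ ∀ x : K, τ (j x) = j x := by
    intro τ
    rw [IntermediateField.mem_fixingSubgroup_iff]
    constructor
    · intro h x
      exact h _ ⟨x, rfl⟩
    · rintro h _ ⟨x, rfl⟩
      exact h x
  have hindex : L.fixingSubgroup.index = d := by
    have h1 := IntermediateField.finrank_eq_fixingSubgroup_index (E' := N) L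
    have h2 : Module.finrank ℚ K = Module.finrank ℚ L :=
      LinearEquiv.finrank_eq (AlgEquiv.ofInjectiveField jj).toLinearEquiv
    exact h1.symm.trans h2.symm
  -- the automorphism
  obtain ⟨g, hg⟩ : ∃ g : Gal(N/ℚ), g ζ = ζ ^ b := by
    have h1 := cyclotomic_eq_minpoly_rat hζ hmpos
    have h2 := hζ.pow_of_coprime b hcop
    have h3 := cyclotomic_eq_minpoly_rat h2 hmpos
    have h4 : IsConjRoot ℚ (ζ ^ b) ζ := by
      unfold IsConjRoot
      rw [← h1, ← h3]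
    exact h4.exists_algEquiv
  have hgpow : ∀ i : ℕ, (g ^ i) ζ = ζ ^ (b ^ i) := by
    intro i
    induction i with
    | zero => simp
    | succ i ih => rw [pow_succ', AlgEquiv.mul_apply, ih, map_pow, hg, ← pow_mul, pow_succ']
  have hσH : g ^ d.factorial ∈ L.fixingSubgroup := by
    obtain ⟨n, hn1, hn2, hn3⟩ := Subgroup.exists_pow_mem_of_index_ne_zero
      (H := L.fixingSubgroup) (by rw [hindex]; omega) g
    rw [hindex] at hn2
    obtain ⟨k, hk⟩ := Nat.dvd_factorial hn1 hn2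
    rw [hk, pow_mul]
    exact Subgroup.pow_mem _ hn3 k
  set σ := g ^ d.factorial with hσ
  have hσζ : σ ζ = ζ ^ a := hgpow _
  obtain ⟨v1, hv1, hσv1⟩ := key σ ((hLmem σ).1 hσH)
  have hv10 : v1 ≠ 0 := by
    intro h
    rw [h, zero_pow hm] at hv1
    exact hju0 hv1.symm
  -- the power of `v1` is in `K`
  have hfix : ∀ τ ∈ L.fixingSubgroup, τ (v1 ^ (a - 1)) = v1 ^ (a - 1) := by
    intro τ hτ
    have hτju := (hLmem τ).1 hτ
    obtain ⟨i, _, hi⟩ := hζ.eq_pow_of_pow_eq_one (ξ := τ v1 / v1) (by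
      rw [div_pow, ← map_pow, hv1, hτju, div_self hju0])
    have hτv : τ v1 = v1 * ζ ^ i := by
      rw [hi]; field_simp
    obtain ⟨e, _, he⟩ := hζ.eq_pow_of_pow_eq_one (ξ := τ ζ) (by
      rw [← map_pow, hζ.pow_eq_one, map_one])
    -- the commutator
    have hκH : τ⁻¹ * σ⁻¹ * τ * σ ∈ L.fixingSubgroup :=
      Subgroup.mul_mem _ (Subgroup.mul_mem _ (Subgroup.mul_mem _ (Subgroup.inv_mem _ hτ)
        (Subgroup.inv_mem _ hσH)) hτ) hσH
    have hcomm : ∀ y : N, (τ⁻¹ * σ⁻¹ * τ * σ) y = y ↔ τ (σ y) = σ (τ y) := by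
      intro y
      have h1 : τ * σ = σ * τ * (τ⁻¹ * σ⁻¹ * τ * σ) := by group
      have h2 : τ (σ y) = σ (τ ((τ⁻¹ * σ⁻¹ * τ * σ) y)) := by
        have := congrArg (fun f : Gal(N/ℚ) => f y) h1
        simpa only [AlgEquiv.mul_apply] using this
      constructor
      · intro h
        rw [h2, h]
      · intro h
        rw [h2] at h
        exact τ.injective (σ.injective h)
    have hκζ : (τ⁻¹ * σ⁻¹ * τ * σ) ζ = ζ := by
      rw [hcomm, hσζ, ← he, map_pow, ← he, map_pow, hσζ, ← pow_mul, ← pow_mul, mul_comm]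
    obtain ⟨w0, hw0, hκw0⟩ := key _ ((hLmem _).1 hκH)
    have hw00 : w0 ≠ 0 := by
      intro h
      rw [h, zero_pow hm] at hw0
      exact hju0 hw0.symm
    have hκv1 : (τ⁻¹ * σ⁻¹ * τ * σ) v1 = v1 := by
      obtain ⟨l, _, hl⟩ := hζ.eq_pow_of_pow_eq_one (ξ := v1 / w0) (by
        rw [div_pow, hv1, hw0, div_self hju0])
      have h1 : v1 = w0 * ζ ^ l := by
        rw [hl]; field_simp
      rw [h1, map_mul, map_pow, hκw0, hκζ]
    rw [hcomm, hσv1, hτv, map_mul, map_pow, hσv1, hσζ] at hκv1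
    have h1 : ζ ^ i = (ζ ^ a) ^ i := mul_left_cancel₀ hv10 hκv1
    have h2 : (ζ ^ i) ^ (a - 1) = 1 := by
      have h3 : (ζ ^ i) ^ (a - 1) * ζ ^ i = 1 * ζ ^ i := by
        rw [← pow_succ, one_mul, Nat.sub_add_cancel (by omega), ← pow_mul, mul_comm i a, pow_mul,
          ← h1]
      exact mul_right_cancel₀ (pow_ne_zero i (hζ.ne_zero hm)) h3
    rw [map_pow, hτv, mul_pow, h2, mul_one]
  have hL : v1 ^ (a - 1) ∈ L := by
    rw [← IsGalois.fixedField_fixingSubgroup L, IntermediateField.mem_fixedField_iff]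
    exact hfix
  obtain ⟨x, hx⟩ := hL
  have hx' : j x = v1 ^ (a - 1) := hx
  have hxM : x ^ M = ((u : 𝓞 K) : K) := by
    apply j.injective
    rw [map_pow, hx', ← pow_mul, mul_comm, ← hmdef, hv1]
  have hxi : IsIntegral ℤ x := IsIntegral.of_pow hM (by rw [hxM]; exact (u : 𝓞 K).2)
  let x' : 𝓞 K := ⟨x, hxi⟩
  have hx'M : x' ^ M = (u : 𝓞 K) := RingOfIntegers.coe_injective hxM
  have hunit : IsUnit x' := by
    rw [← isUnit_pow_iff (n := M) (by omega), hx'M]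
    exact u.isUnit
  obtain ⟨y, hy⟩ := hunit
  refine ⟨y, Units.ext ?_⟩
  rw [Units.val_pow_eq_pow_val, hy, hx'M]

/-- **Chevalley's theorem** for the units of a number field -/
theorem chevalley (K : Type) [Field K] [NumberField K] (M : ℕ) (hM : 1 ≤ M) :
    ∃ Q : ℕ, 1 ≤ Q ∧ ∀ u : (𝓞 K)ˣ, (∃ y : 𝓞 K, (u : 𝓞 K) = 1 + Q * y) →
      ∃ b : (𝓞 K)ˣ, u = b ^ M := by
  classical
  obtain ⟨m, hMm, hm, hcore⟩ := chev_core K M hM
  have hmpos := Nat.pos_of_ne_zero hm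
  let R : Subgroup (𝓞 K)ˣ := (powMonoidHom m).range
  have hfin : Finite ((𝓞 K)ˣ ⧸ R) := by
    have h1 : Group.FG (𝓞 K)ˣ := by
      have : AddGroup.FG (Additive (𝓞 K)ˣ) := Module.Finite.iff_addGroup_fg.mp inferInstance
      exact GroupFG.iff_add_fg.mpr this
    have h2 : Group.FG ((𝓞 K)ˣ ⧸ R) := inferInstance
    refine CommGroup.finite_of_fg_isMulTorsion _ ?_
    intro q
    induction q using QuotientGroup.induction_on with
    | H z =>
      rw [isOfFinOrder_iff_pow_eq_one]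
      refine ⟨m, hmpos, ?_⟩
      rw [← QuotientGroup.mk_pow, QuotientGroup.eq_one_iff]
      exact ⟨z, rfl⟩
  -- the bad classes
  have hbad : ∀ c : (𝓞 K)ˣ ⧸ R, ∃ p : ℕ, 1 ≤ p ∧ ((¬ ∃ b : (𝓞 K)ˣ, c.out = b ^ M) →
      ∃ (_ : Fact p.Prime) (ψ : 𝓞 K →+* AlgebraicClosure (ZMod p)),
        ∀ w : (𝓞 K)ˣ, ψ ((c.out : (𝓞 K)ˣ) * w ^ m : 𝓞 K) ≠ 1) := by
    intro c
    by_cases h : ∃ b : (𝓞 K)ˣ, c.out = b ^ M
    · exact ⟨1, le_rfl, fun h' => absurd h h'⟩
    · by_contra hcon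
      apply h
      apply hcore
      intro p hp ψ
      by_contra h2
      push Not at h2
      apply hcon
      exact ⟨p, hp.out.one_lt.le, fun _ => ⟨hp, ψ, h2⟩⟩
  choose P hP1 hP2 using hbad
  have := Fintype.ofFinite ((𝓞 K)ˣ ⧸ R)
  refine ⟨∏ c, P c, Nat.succ_le_of_lt (Finset.prod_pos fun c _ => hP1 c), ?_⟩
  rintro u ⟨y, hy⟩
  let c : (𝓞 K)ˣ ⧸ R := QuotientGroup.mk u
  obtain ⟨z, hz⟩ : (c.out)⁻¹ * u ∈ R := by
    rw [← QuotientGroup.eq]
    exact QuotientGroup.out_eq' c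
  have hz' : u = c.out * z ^ m := by
    have : z ^ m = (c.out)⁻¹ * u := hz
    rw [this, mul_inv_cancel_left]
  by_cases h : ∃ b : (𝓞 K)ˣ, c.out = b ^ M
  · obtain ⟨b, hb⟩ := h
    obtain ⟨k, hk⟩ := hMm
    exact ⟨b * z ^ k, by rw [hz', hb, hk, mul_pow, ← pow_mul, mul_comm k M]⟩
  · exfalso
    obtain ⟨hp, ψ, hψ⟩ := hP2 c h
    apply hψ z
    have h1 : ((c.out : (𝓞 K)ˣ) * z ^ m : 𝓞 K) = (u : 𝓞 K) := by
      rw [hz']; push_cast; rfl
    rw [h1, hy, map_add, map_one, map_mul, map_natCast]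
    have h2 : ((∏ c, P c : ℕ) : AlgebraicClosure (ZMod (P c))) = 0 := by
      rw [CharP.cast_eq_zero_iff (AlgebraicClosure (ZMod (P c))) (P c)]
      exact Finset.dvd_prod_of_mem P (Finset.mem_univ c)
    rw [h2, zero_mul, add_zero]

end Pool.Agent.H19W.CB
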