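import Pool.Agent.H19W.CB.Fox

/-!
# The filtration of the outer automorphism group of a free group
-/

set_option autoImplicit false

open scoped Classical

namespace Pool.Agent.H19W.CB

variable {J : Type}

lemma cr_mul_xm' (j : J) (L : List J) (u : ZF J) :
    cr L (u * xm j) = if L.head? = some j then cr L.tail u else 0 := by
  cases L with
  | nil => rw [cr_nil, map_mul, aug_xm, mul_zero]; simp
  | cons l L =>
    rw [cr_mul_xm]
    simp [eq_comm]

lemma cr_xm_mul' (j : J) (L : List J) (u : ZF J) :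
    cr L (xm j * u) = if L.getLast? = some j then cr L.dropLast u else 0 := by
  rcases List.eq_nil_or_concat L with rfl | ⟨L, l, rfl⟩
  · rw [cr_nil, map_mul, aug_xm, zero_mul]; simp
  · rw [List.concat_eq_append, cr_xm_mul]
    simp [eq_comm]

/-- the coefficients of the commutator with a letter -/
noncomputable def ad (u : List J → ℤ) (j : J) (L : List J) : ℤ :=
  (if L.head? = some j then u L.tail else 0) - (if L.getLast? = some j then u L.dropLast else 0)

lemma cr_comm (j : J) (L : List J) (u : ZF J) :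
    cr L (u * xm j - xm j * u) = ad (fun w => cr w u) j L := by
  rw [cr_sub, cr_mul_xm', cr_xm_mul']; rfl

/-- the retraction -/
noncomputable def rr (l0 l1 : J) (v : J → List J → ℤ) (w : List J) : ℤ :=
  if w.getLast? = some l0 then v l1 (l1 :: w) else v l0 (l0 :: w)

lemma rr_ad {l0 l1 : J} (h01 : l0 ≠ l1) (u : List J → ℤ) (w : List J) (hw : w ≠ []) :
    rr l0 l1 (ad u) w = u w := by
  have hlast : ∀ l : J, (l :: w).getLast? = w.getLast? := by
    intro l
    cases w with
    | nil => exact absurd rfl hw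
    | cons a w => rw [List.getLast?_cons_cons]
  unfold rr
  split_ifs with h
  · unfold ad
    rw [hlast, h, if_pos (by simp), if_neg (by simpa using h01)]
    simp
  · unfold ad
    rw [hlast, if_pos (by simp), if_neg h]
    simp

/-- the normalized coefficients -/
noncomputable def Nm (l0 l1 : J) (v : J → List J → ℤ) (j : J) (L : List J) : ℤ :=
  v j L - ad (rr l0 l1 v) j L

lemma ad_add (u u' : List J → ℤ) (j : J) (L : List J) :
    ad (fun w => u w + u' w) j L = ad u j L + ad u' j L := by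
  unfold ad
  split_ifs <;> ring

lemma ad_neg (u : List J → ℤ) (j : J) (L : List J) : ad (fun w => - u w) j L = - ad u j L := by
  unfold ad
  split_ifs <;> ring

lemma rr_add (l0 l1 : J) (v v' : J → List J → ℤ) (w : List J) :
    rr l0 l1 (fun j L => v j L + v' j L) w = rr l0 l1 v w + rr l0 l1 v' w := by
  unfold rr
  split_ifs <;> rfl

lemma Nm_add (l0 l1 : J) (v v' : J → List J → ℤ) (j : J) (L : List J) :
    Nm l0 l1 (fun j L => v j L + v' j L) j L = Nm l0 l1 v j L + Nm l0 l1 v' j L := by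
  unfold Nm
  have : rr l0 l1 (fun j L => v j L + v' j L) = fun w => rr l0 l1 v w + rr l0 l1 v' w :=
    funext fun w => rr_add l0 l1 v v' w
  rw [this, ad_add]
  ring

lemma Nm_dvd {l0 l1 : J} {q : ℤ} {d : ℕ} {v : J → List J → ℤ} (h : ∀ j L, L.length = d → q ∣ v j L)
    (j : J) (L : List J) (hL : L.length = d) (hd : 1 ≤ d) : q ∣ Nm l0 l1 v j L := by
  have hr : ∀ w : List J, w.length = d - 1 → q ∣ rr l0 l1 v w := by
    intro w hw
    unfold rr
    split_ifs
    · exact h _ _ (by rw [List.length_cons]; omega)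
    · exact h _ _ (by rw [List.length_cons]; omega)
  unfold Nm ad
  refine dvd_sub (h j L hL) (dvd_sub ?_ ?_)
  · split_ifs
    · exact hr _ (by rw [List.length_tail]; omega)
    · exact dvd_zero _
  · split_ifs
    · exact hr _ (by rw [List.length_dropLast]; omega)
    · exact dvd_zero _

lemma Nm_congr {l0 l1 : J} {d : ℕ} {v v' : J → List J → ℤ}
    (h : ∀ j L, L.length = d → v j L = v' j L)
    (j : J) (L : List J) (hL : L.length = d) (hd : 1 ≤ d) : Nm l0 l1 v j L = Nm l0 l1 v' j L := by
  have hr : ∀ w : List J, w.length = d - 1 → rr l0 l1 v w = rr l0 l1 v' w := by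
    intro w hw
    unfold rr
    split_ifs
    · exact h _ _ (by rw [List.length_cons]; omega)
    · exact h _ _ (by rw [List.length_cons]; omega)
  unfold Nm ad
  rw [h j L hL, hr L.tail (by rw [List.length_tail]; omega),
    hr L.dropLast (by rw [List.length_dropLast]; omega)]

lemma Nm_ad {l0 l1 : J} (h01 : l0 ≠ l1) (u : List J → ℤ) (j : J) (L : List J) (hL : 2 ≤ L.length) :
    Nm l0 l1 (ad u) j L = 0 := by
  unfold Nm
  have h1 : rr l0 l1 (ad u) L.tail = u L.tail := rr_ad h01 u _ (by
    intro h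
    have := congrArg List.length h
    rw [List.length_tail, List.length_nil] at this
    omega)
  have h2 : rr l0 l1 (ad u) L.dropLast = u L.dropLast := rr_ad h01 u _ (by
    intro h
    have := congrArg List.length h
    rw [List.length_dropLast, List.length_nil] at this
    omega)
  unfold ad at h1 h2 ⊢
  rw [h1, h2, sub_self]

/-- products of the elements `x_j - 1` -/
noncomputable def mono : List J → ZF J
  | [] => 1
  | j :: L => mono L * xm j

lemma cr_mono (M L : List J) : cr M (mono L) = if M = L then 1 else 0 := by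
  induction L generalizing M with
  | nil =>
    cases M with
    | nil => simp [mono, cr_nil]
    | cons m M => rw [mono, cr_one _ (by simp)]; simp
  | cons l L ih =>
    cases M with
    | nil => rw [mono, cr_nil, map_mul, aug_xm, mul_zero]; simp
    | cons m M =>
      rw [mono, cr_mul_xm, ih]
      by_cases h1 : l = m
      · by_cases h2 : M = L
        · simp [h1, h2]
        · simp [h1, h2]
      · rw [if_neg h1, if_neg]
        intro h
        exact h1 (List.cons.inj h).1.symm

variable [Fintype J]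

/-- an element with given coefficients of degree `d` -/
noncomputable def lft (d : ℕ) (u : List J → ℤ) : ZF J :=
  ∑ f : Fin d → J, u (List.ofFn f) • mono (List.ofFn f)

lemma cr_lft (d : ℕ) (u : List J → ℤ) (L : List J) :
    cr L (lft d u) = if L.length = d then u L else 0 := by
  rw [lft, cr_sum]
  simp only [cr_smul, cr_mono]
  split_ifs with h
  · subst h
    rw [Finset.sum_eq_single (fun i => L.get i)]
    · have : List.ofFn (fun i => L.get i) = L := List.ofFn_get L
      rw [this]; simp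
    · intro f _ hf
      rw [if_neg, mul_zero]
      intro h2
      apply hf
      apply List.ofFn_injective
      rw [← h2]
      exact (List.ofFn_get L).symm
    · intro h; exact absurd (Finset.mem_univ _) h
  · apply Finset.sum_eq_zero
    intro f _
    rw [if_neg, mul_zero]
    intro h2
    apply h
    rw [h2, List.length_ofFn]

lemma V_lft (q d : ℕ) (u : List J → ℤ) : V q d (lft d u) := by
  intro L hL
  rw [cr_lft, if_neg (by omega)]
  exact dvd_zero _

/-- the deviation of `g` from an intertwiner -/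
noncomputable def dl (φ : MulAut (FreeGroup J)) (g : ZF J) (x : FreeGroup J) : ZF J :=
  el (φ x) * g - g * el x

/-- `φ` is the conjugation by `g` modulo `d` -/
def W (d : ℕ) (φ : MulAut (FreeGroup J)) (g : ZF J) : Prop :=
  V 0 1 (g - 1) ∧ ∀ x, V 0 d (dl φ g x)

omit [Fintype J] in
lemma W.mono {d d' : ℕ} {φ : MulAut (FreeGroup J)} {g : ZF J} (h : W d φ g) (hd : d' ≤ d) :
    W d' φ g := ⟨h.1, fun x => (h.2 x).mono hd⟩

omit [Fintype J] in
lemma W_conj (d : ℕ) (y : FreeGroup J) : W d (MulAut.conj y) (el y) := by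
  refine ⟨V_el_sub_one 0 y, fun x => ?_⟩
  have : dl (MulAut.conj y) (el y) x = 0 := by
    rw [dl, MulAut.conj_apply, ← el_mul, ← el_mul, inv_mul_cancel_right, sub_self]
  rw [this]
  exact V_zero _ _

omit [Fintype J] in
lemma dl_mul (φ ψ : MulAut (FreeGroup J)) (g h : ZF J) (x : FreeGroup J) :
    dl (φ * ψ) (act φ.toMonoidHom h * g) x =
      act φ.toMonoidHom (dl ψ h x) * g + act φ.toMonoidHom h * dl φ g x := by
  unfold dl
  rw [map_sub, map_mul, map_mul, act_el, act_el, MulAut.mul_apply]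
  show el (φ (ψ x)) * (act φ.toMonoidHom h * g) - act φ.toMonoidHom h * g * el x =
    (el (φ (ψ x)) * act φ.toMonoidHom h - act φ.toMonoidHom h * el (φ x)) * g +
      act φ.toMonoidHom h * (el (φ x) * g - g * el x)
  noncomm_ring

lemma W.mul {d : ℕ} {φ ψ : MulAut (FreeGroup J)} {g h : ZF J} (hφ : W d φ g) (hψ : W d ψ h) :
    W d (φ * ψ) (act φ.toMonoidHom h * g) := by
  refine ⟨?_, fun x => ?_⟩
  · have e : act φ.toMonoidHom h * g - 1 = act φ.toMonoidHom h * (g - 1) + act φ.toMonoidHom (h - 1) := by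
      rw [map_sub, map_one]; noncomm_ring
    rw [e]
    exact (hφ.1.mul_left _).add (hψ.1.act _)
  · rw [dl_mul]
    exact (((hψ.2 x).act _).mul_right _).add ((hφ.2 x).mul_left _)

omit [Fintype J] in
/-- from generators to all elements -/
lemma gen_all {d : ℕ} {φ : MulAut (FreeGroup J)} {g : ZF J}
    (h : ∀ j, V 0 d (dl φ g (FreeGroup.of j))) (x : FreeGroup J) : V 0 d (dl φ g x) := by
  induction x using FreeGroup.induction_on with
  | C1 =>
    have : dl φ g 1 = 0 := by rw [dl, map_one, el_one, one_mul, mul_one, sub_self]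
    rw [this]; exact V_zero _ _
  | of i => exact h i
  | inv_of i hi =>
    have e : dl φ g (FreeGroup.of i)⁻¹ = - (el (φ (FreeGroup.of i))⁻¹ *
        dl φ g (FreeGroup.of i) * el (FreeGroup.of i)⁻¹) := by
      unfold dl
      have h1 := el_inv_mul (φ (FreeGroup.of i))
      have h2 := el_mul_inv (FreeGroup.of i)
      rw [map_inv, mul_sub, sub_mul, ← mul_assoc, h1, one_mul, mul_assoc (el (φ (FreeGroup.of i))⁻¹)
        (g * el (FreeGroup.of i)), mul_assoc g, h2, mul_one, neg_sub]
    rw [e]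
    exact ((hi.mul_left _).mul_right _).neg
  | mul x y hx hy =>
    have e : dl φ g (x * y) = el (φ x) * dl φ g y + dl φ g x * el y := by
      unfold dl
      rw [map_mul, el_mul, el_mul]
      noncomm_ring
    rw [e]
    exact (hy.mul_left _).add (hx.mul_right _)

omit [Fintype J] in
/-- trivial action on the abelianization -/
lemma W.ia {d : ℕ} {φ : MulAut (FreeGroup J)} {g : ZF J} (h : W d φ g) (hd : 2 ≤ d)
    (x : FreeGroup J) : V 0 2 (el (φ x) - el x) := by
  have e : el (φ x) - el x = dl φ g x - (el (φ x) - 1) * (g - 1) + (g - 1) * (el x - 1) := by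
    unfold dl
    noncomm_ring
  rw [e]
  exact (((h.2 x).mono hd).sub ((V_el_sub_one 0 _).mul h.1)).add (h.1.mul (V_el_sub_one 0 _))

omit [Fintype J] in
lemma dl_eq (φ : MulAut (FreeGroup J)) (h : ZF J) (j : J) : dl φ h (FreeGroup.of j) =
    (el (φ (FreeGroup.of j)) - el (FreeGroup.of j)) * h - (h * xm j - xm j * h) := by
  unfold dl xm
  noncomm_ring

omit [Fintype J] in
lemma cr_dl {φ : MulAut (FreeGroup J)} (hφ : ∀ x, V 0 2 (el (φ x) - el x)) {k : ℕ} {h : ZF J}
    (hk : V 0 k h) (j : J) (L : List J) (hL : L.length ≤ k + 1) :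
    cr L (dl φ h (FreeGroup.of j)) = - ad (fun w => cr w h) j L := by
  rw [dl_eq, cr_sub, cr_comm]
  have h1 := ((hφ (FreeGroup.of j)).mul hk) L (by omega)
  rw [Nat.cast_zero, zero_dvd_iff] at h1
  rw [h1, zero_sub]

omit [Fintype J] in
lemma dl_sub (φ : MulAut (FreeGroup J)) (g g' : ZF J) (x : FreeGroup J) :
    dl φ (g' - g) x = dl φ g' x - dl φ g x := by
  unfold dl
  noncomm_ring

omit [Fintype J] in
lemma dl_add (φ : MulAut (FreeGroup J)) (g g' : ZF J) (x : FreeGroup J) :
    dl φ (g + g') x = dl φ g x + dl φ g' x := by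
  unfold dl
  noncomm_ring

omit [Fintype J] in
/-- two intertwiners modulo `d` agree modulo `d - 1` -/
lemma W.uniq {l0 l1 : J} (h01 : l0 ≠ l1) {d : ℕ} (hd : 2 ≤ d) {φ : MulAut (FreeGroup J)} {g g' : ZF J}
    (hg : W d φ g) (hg' : W d φ g') : V 0 (d - 1) (g' - g) := by
  have h1 : V 0 1 (g' - g) := by
    have : g' - g = (g' - 1) - (g - 1) := by abel
    rw [this]; exact hg'.1.sub hg.1
  have h2 : ∀ j, V 0 d (dl φ (g' - g) (FreeGroup.of j)) := fun j => by
    rw [dl_sub]; exact (hg'.2 _).sub (hg.2 _)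
  have key : ∀ k, 1 ≤ k → k ≤ d - 1 → V 0 k (g' - g) := by
    intro k hk
    induction k, hk using Nat.le_induction with
    | base => intro _; exact h1
    | succ k hk ih =>
      intro hkd L hL
      have hV := ih (by omega)
      rcases Nat.lt_or_ge L.length k with h | h
      · exact hV L h
      · have hLk : L.length = k := by omega
        have hne : L ≠ [] := by
          intro h3; rw [h3, List.length_nil] at hLk; omega
        have had : ∀ j, ∀ M : List J, M.length = k + 1 → ad (fun w => cr w (g' - g)) j M = 0 := by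
          intro j M hM
          have h3 := cr_dl (fun x => hg.ia hd x) hV j M (by omega)
          have h4 := h2 j M (by omega)
          rw [Nat.cast_zero, zero_dvd_iff] at h4
          rw [h4] at h3
          exact neg_eq_zero.mp h3.symm
        have h3 := rr_ad h01 (fun w => cr w (g' - g)) L hne
        have h4 : rr l0 l1 (ad fun w => cr w (g' - g)) L = 0 := by
          unfold rr
          split_ifs
          · exact had _ _ (by rw [List.length_cons]; omega)
          · exact had _ _ (by rw [List.length_cons]; omega)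
        rw [h4] at h3
        rw [← h3]
        exact dvd_zero _
  exact key (d - 1) (by omega) le_rfl

/-- the normalized leading coefficients -/
noncomputable def vv (φ : MulAut (FreeGroup J)) (g : ZF J) : J → List J → ℤ :=
  fun j L => cr L (dl φ g (FreeGroup.of j))

omit [Fintype J] in
lemma W.indep {l0 l1 : J} (h01 : l0 ≠ l1) {d : ℕ} (hd : 2 ≤ d) {φ : MulAut (FreeGroup J)} {g g' : ZF J}
    (hg : W d φ g) (hg' : W d φ g') (j : J) (L : List J) (hL : L.length = d) :
    Nm l0 l1 (vv φ g') j L = Nm l0 l1 (vv φ g) j L := by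
  have hV := hg.uniq h01 hd hg'
  have h1 : ∀ j L, L.length = d → vv φ g' j L = vv φ g j L + ad (fun w => - cr w (g' - g)) j L := by
    intro j L hL
    have h2 := cr_dl (fun x => hg.ia hd x) hV j L (by omega)
    rw [dl_sub, cr_sub] at h2
    rw [ad_neg, ← h2]
    unfold vv
    ring
  rw [Nm_congr h1 j L hL (by omega), Nm_add, Nm_ad h01 _ j L (by omega), add_zero]

omit [Fintype J] in
/-- an element of `V 0 d` modulo elements of `V 0 (d + 1)` -/
lemma cr_eq_of {d : ℕ} {a b : ZF J} (h : V 0 (d + 1) (a - b)) (L : List J) (hL : L.length = d) :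
    cr L a = cr L b := by
  have h1 := h L (by omega)
  rw [Nat.cast_zero, zero_dvd_iff, cr_sub] at h1
  exact sub_eq_zero.mp h1

lemma vv_mul {d : ℕ} (hd : 2 ≤ d) {φ ψ : MulAut (FreeGroup J)} {g h : ZF J}
    (hφ : W d φ g) (hψ : W d ψ h) (j : J) (L : List J) (hL : L.length = d) :
    vv (φ * ψ) (act φ.toMonoidHom h * g) j L = vv φ g j L + vv ψ h j L := by
  unfold vv
  rw [dl_mul, cr_add, add_comm]
  congr 1
  · apply cr_eq_of _ L hL
    have e : act φ.toMonoidHom h * dl φ g (FreeGroup.of j) - dl φ g (FreeGroup.of j) =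
        act φ.toMonoidHom (h - 1) * dl φ g (FreeGroup.of j) := by
      rw [map_sub, map_one]; noncomm_ring
    rw [e, add_comm d 1]
    exact (hψ.1.act _).mul (hφ.2 _)
  · apply cr_eq_of _ L hL
    have e : act φ.toMonoidHom (dl ψ h (FreeGroup.of j)) * g - dl ψ h (FreeGroup.of j) =
        act φ.toMonoidHom (dl ψ h (FreeGroup.of j)) * (g - 1) +
        (act φ.toMonoidHom (dl ψ h (FreeGroup.of j)) - dl ψ h (FreeGroup.of j)) := by
      noncomm_ring
    rw [e]
    exact (((hψ.2 _).act _).mul hφ.1).add ((hψ.2 _).act_sub _ (fun j => hφ.ia hd _))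

/-- the Johnson homomorphism of degree `d` -/
noncomputable def tt (l0 l1 : J) (d : ℕ) (φ : MulAut (FreeGroup J)) : J → (Fin d → J) → ℤ :=
  if h : ∃ g, W d φ g then fun j f => Nm l0 l1 (vv φ h.choose) j (List.ofFn f) else 0

omit [Fintype J] in
lemma tt_eq {l0 l1 : J} (h01 : l0 ≠ l1) {d : ℕ} (hd : 2 ≤ d) {φ : MulAut (FreeGroup J)} {g : ZF J}
    (hg : W d φ g) (j : J) (f : Fin d → J) :
    tt l0 l1 d φ j f = Nm l0 l1 (vv φ g) j (List.ofFn f) := by
  have h : ∃ g, W d φ g := ⟨g, hg⟩
  unfold tt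
  rw [dif_pos h]
  exact hg.indep h01 hd h.choose_spec j _ (List.length_ofFn)

lemma tt_mul {l0 l1 : J} (h01 : l0 ≠ l1) {d : ℕ} (hd : 2 ≤ d) {φ ψ : MulAut (FreeGroup J)}
    (hφ : ∃ g, W d φ g) (hψ : ∃ g, W d ψ g) :
    tt l0 l1 d (φ * ψ) = tt l0 l1 d φ + tt l0 l1 d ψ := by
  obtain ⟨g, hg⟩ := hφ
  obtain ⟨h, hh⟩ := hψ
  funext j f
  rw [Pi.add_apply, Pi.add_apply, tt_eq h01 hd (hg.mul hh), tt_eq h01 hd hg, tt_eq h01 hd hh]
  rw [← Nm_add]
  exact Nm_congr (fun j L hL => vv_mul hd hg hh j L hL) j _ (List.length_ofFn) (by omega)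

/-- the subgroup of the automorphisms which are conjugations modulo `d` -/
def OO (d : ℕ) : Subgroup (MulAut (FreeGroup J)) where
  carrier := {φ | (∃ g, W d φ g) ∧ ∃ g, W d φ⁻¹ g}
  mul_mem' := by
    rintro φ ψ ⟨⟨g, hg⟩, ⟨g', hg'⟩⟩ ⟨⟨h, hh⟩, ⟨h', hh'⟩⟩
    refine ⟨⟨_, hg.mul hh⟩, ?_⟩
    rw [mul_inv_rev]
    exact ⟨_, hh'.mul hg'⟩
  one_mem' := by
    have h : W d (1 : MulAut (FreeGroup J)) 1 := by
      have := W_conj d (1 : FreeGroup J)
      rwa [map_one, el_one] at this
    refine ⟨⟨1, h⟩, ⟨1, ?_⟩⟩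
    rwa [inv_one]
  inv_mem' := by
    rintro φ ⟨h1, h2⟩
    refine ⟨h2, ?_⟩
    rwa [inv_inv]

lemma mem_OO (d : ℕ) (φ : MulAut (FreeGroup J)) :
    φ ∈ OO d ↔ (∃ g, W d φ g) ∧ ∃ g, W d φ⁻¹ g := Iff.rfl

lemma OO_anti {d d' : ℕ} (h : d ≤ d') : (OO d' : Subgroup (MulAut (FreeGroup J))) ≤ OO d := by
  rintro φ ⟨⟨g, hg⟩, ⟨g', hg'⟩⟩
  exact ⟨⟨g, hg.mono h⟩, ⟨g', hg'.mono h⟩⟩

lemma conj_mem_OO (d : ℕ) (y : FreeGroup J) : MulAut.conj y ∈ (OO d : Subgroup (MulAut (FreeGroup J))) := by
  refine ⟨⟨_, W_conj d y⟩, ?_⟩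
  rw [← map_inv]
  exact ⟨_, W_conj d y⁻¹⟩

omit [Fintype J] in
lemma tt_of_succ {l0 l1 : J} (h01 : l0 ≠ l1) {d : ℕ} (hd : 2 ≤ d) {φ : MulAut (FreeGroup J)}
    (h : ∃ g, W (d + 1) φ g) : tt l0 l1 d φ = 0 := by
  obtain ⟨g, hg⟩ := h
  funext j f
  rw [tt_eq h01 hd (hg.mono (Nat.le_succ d))]
  have h0 : ∀ j L, L.length = d → (0 : ℤ) ∣ vv φ g j L := by
    intro j L hL
    exact hg.2 _ L (by omega)
  exact zero_dvd_iff.mp (Nm_dvd h0 j _ (List.length_ofFn) (by omega))

lemma succ_of_tt {l0 l1 : J} (h01 : l0 ≠ l1) {d : ℕ} (hd : 2 ≤ d) {φ : MulAut (FreeGroup J)}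
    (h : ∃ g, W d φ g) (ht : tt l0 l1 d φ = 0) : ∃ g, W (d + 1) φ g := by
  obtain ⟨g, hg⟩ := h
  let u : ZF J := lft (d - 1) (rr l0 l1 (vv φ g))
  have hu : V 0 (d - 1) u := V_lft _ _ _
  refine ⟨g + u, ?_, gen_all fun j L hL => ?_⟩
  · have e : g + u - 1 = (g - 1) + u := by abel
    rw [e]
    exact hg.1.add (hu.mono (by omega))
  · rw [dl_add, cr_add, Nat.cast_zero, zero_dvd_iff]
    have h1 := cr_dl (fun x => hg.ia hd x) hu j L (by omega)
    rcases Nat.lt_or_ge L.length d with hlt | hge
    · have h2 := hg.2 (FreeGroup.of j) L hlt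
      rw [Nat.cast_zero, zero_dvd_iff] at h2
      rw [h1, h2, zero_add, neg_eq_zero]
      unfold ad
      have h3 : ∀ w : List J, w.length < d - 1 → cr w u = 0 := by
        intro w hw
        have := hu w hw
        rwa [Nat.cast_zero, zero_dvd_iff] at this
      rw [show (if L.head? = some j then cr L.tail u else 0) = 0 by
        split_ifs with h4
        · apply h3
          rw [List.length_tail]
          have : L ≠ [] := by rintro rfl; simp at h4
          have := List.length_pos_iff.mpr this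
          omega
        · rfl,
        show (if L.getLast? = some j then cr L.dropLast u else 0) = 0 by
        split_ifs with h4
        · apply h3
          rw [List.length_dropLast]
          have : L ≠ [] := by rintro rfl; simp at h4
          have := List.length_pos_iff.mpr this
          omega
        · rfl, sub_zero]
    · have hLd : L.length = d := by omega
      have h2 : Nm l0 l1 (vv φ g) j L = 0 := by
        have h3 := congrFun (congrFun ht j) (fun i : Fin d => L.get (i.cast hLd.symm))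
        rw [tt_eq h01 hd hg] at h3
        have h4 : List.ofFn (fun i : Fin d => L.get (i.cast hLd.symm)) = L := by
          subst hLd
          exact List.ofFn_get L
        rw [h4] at h3
        exact h3
      have h5 : ad (fun w => cr w u) j L = ad (rr l0 l1 (vv φ g)) j L := by
        have h6 : ∀ w : List J, w.length = d - 1 → cr w u = rr l0 l1 (vv φ g) w := by
          intro w hw
          show cr w (lft (d - 1) (rr l0 l1 (vv φ g))) = _
          rw [cr_lft, if_pos hw]
        show (if L.head? = some j then cr L.tail u else 0) -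
          (if L.getLast? = some j then cr L.dropLast u else 0) = _
        rw [h6 L.tail (by rw [List.length_tail]; omega),
          h6 L.dropLast (by rw [List.length_dropLast]; omega)]
        rfl
      rw [h1, h5]
      unfold Nm at h2
      have h6 : cr L (dl φ g (FreeGroup.of j)) = vv φ g j L := rfl
      rw [h6]
      linarith

lemma tt_inv {l0 l1 : J} (h01 : l0 ≠ l1) {d : ℕ} (hd : 2 ≤ d) {φ : MulAut (FreeGroup J)}
    (h : φ ∈ (OO d : Subgroup (MulAut (FreeGroup J)))) : tt l0 l1 d φ⁻¹ = - tt l0 l1 d φ := by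
  have h1 := tt_mul h01 hd h.1 h.2
  have h2 : tt l0 l1 d (1 : MulAut (FreeGroup J)) = 0 :=
    tt_of_succ h01 hd ((OO (d + 1)).one_mem (G := MulAut (FreeGroup J))).1
  rw [mul_inv_cancel, h2] at h1
  exact (neg_eq_of_add_eq_zero_right h1.symm).symm

/-- the kernel of the Johnson homomorphism -/
theorem OO_succ_of_tt {l0 l1 : J} (h01 : l0 ≠ l1) {d : ℕ} (hd : 2 ≤ d) {φ : MulAut (FreeGroup J)}
    (h : φ ∈ (OO d : Subgroup (MulAut (FreeGroup J)))) (ht : tt l0 l1 d φ = 0) : φ ∈ OO (d + 1) := by
  refine ⟨succ_of_tt h01 hd h.1 ht, succ_of_tt h01 hd h.2 ?_⟩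
  rw [tt_inv h01 hd h, ht, neg_zero]

lemma tt_pow {l0 l1 : J} (h01 : l0 ≠ l1) {d : ℕ} (hd : 2 ≤ d) {φ : MulAut (FreeGroup J)}
    (h : φ ∈ (OO d : Subgroup (MulAut (FreeGroup J)))) (k : ℕ) :
    tt l0 l1 d (φ ^ k) = k • tt l0 l1 d φ := by
  induction k with
  | zero =>
    rw [pow_zero, zero_smul]
    exact tt_of_succ h01 hd ((OO (d + 1)).one_mem (G := MulAut (FreeGroup J))).1
  | succ k ih => rw [pow_succ, tt_mul h01 hd ((OO d).pow_mem h k).1 h.1, ih, succ_nsmul]

/-- the graded pieces are torsion-free -/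
theorem OO_pure {l0 l1 : J} (h01 : l0 ≠ l1) {d : ℕ} (hd : 2 ≤ d) {φ : MulAut (FreeGroup J)}
    (h : φ ∈ (OO d : Subgroup (MulAut (FreeGroup J)))) (k : ℕ) (hk : 1 ≤ k)
    (hp : φ ^ k ∈ (OO (d + 1) : Subgroup (MulAut (FreeGroup J)))) : φ ∈ OO (d + 1) := by
  apply OO_succ_of_tt h01 hd h
  have h1 := tt_pow h01 hd h k
  rw [tt_of_succ h01 hd hp.1] at h1
  funext j f
  have h2 := congrFun (congrFun h1 j) f
  have h3 : (0 : ℤ) = k * tt l0 l1 d φ j f := by simpa using h2
  rcases mul_eq_zero.mp h3.symm with h4 | h4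
  · exfalso
    have : k = 0 := by exact_mod_cast h4
    omega
  · exact h4

omit [Fintype J] in
/-- automorphisms acting on a finite quotient as inner automorphisms -/
theorem tt_cong {l0 l1 : J} (h01 : l0 ≠ l1) {d : ℕ} (hd : 2 ≤ d) {φ : MulAut (FreeGroup J)}
    (h : ∃ g, W d φ g) (q : ℕ) (y : FreeGroup J)
    (hy : ∀ x, V q (d + 1) (el (y⁻¹ * φ x * y) - el x)) :
    ∃ p, tt l0 l1 d φ = q • p := by
  obtain ⟨g, hg⟩ := h
  have key : ∀ j L, L.length = d → (q : ℤ) ∣ Nm l0 l1 (vv φ g) j L := by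
    intro j L hL
    set g0 := el y⁻¹ * g with hg0
    have h1 : ∀ j L, L.length = d → (q : ℤ) ∣ vv φ g j L + ad (fun w => cr w g0) j L := by
      intro j L hL
      have e1 : el (y⁻¹ * φ (FreeGroup.of j) * y) * g0 - g0 * el (FreeGroup.of j) =
          el y⁻¹ * dl φ g (FreeGroup.of j) := by
        have h2 := el_mul_inv y
        rw [hg0, el_mul, el_mul]
        unfold dl
        calc el y⁻¹ * el (φ (FreeGroup.of j)) * el y * (el y⁻¹ * g) -
              el y⁻¹ * g * el (FreeGroup.of j)
            = el y⁻¹ * el (φ (FreeGroup.of j)) * (el y * el y⁻¹) * g -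
              el y⁻¹ * g * el (FreeGroup.of j) := by noncomm_ring
          _ = el y⁻¹ * (el (φ (FreeGroup.of j)) * g - g * el (FreeGroup.of j)) := by
            rw [h2]; noncomm_ring
      have e2 : cr L (el y⁻¹ * dl φ g (FreeGroup.of j)) = vv φ g j L := by
        apply cr_eq_of _ L hL
        have : el y⁻¹ * dl φ g (FreeGroup.of j) - dl φ g (FreeGroup.of j) =
            (el y⁻¹ - 1) * dl φ g (FreeGroup.of j) := by noncomm_ring
        rw [this, add_comm d 1]
        exact (V_el_sub_one 0 _).mul (hg.2 _)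
      have e3 : el (y⁻¹ * φ (FreeGroup.of j) * y) * g0 - g0 * el (FreeGroup.of j) =
          (el (y⁻¹ * φ (FreeGroup.of j) * y) - el (FreeGroup.of j)) * g0 -
          (g0 * xm j - xm j * g0) := by
        unfold xm; noncomm_ring
      rw [← e2, ← e1, e3, cr_sub, cr_comm, sub_add_cancel]
      exact ((hy (FreeGroup.of j)).mul_right g0) L (by omega)
    have h2 := Nm_dvd (l0 := l0) (l1 := l1) h1 j L hL (by omega)
    rw [Nm_add, Nm_ad h01 _ j L (by omega), add_zero] at h2
    exact h2
  choose p hp using fun (j : J) (f : Fin d → J) => key j (List.ofFn f) (List.length_ofFn)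
  refine ⟨p, ?_⟩
  funext j f
  rw [tt_eq h01 hd hg, hp j f]
  simp

end Pool.Agent.H19W.CB
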