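import Pool.Agent.H19W.CB.Out
import Pool.Agent.R387.TC.Step

/-!
# Virtually abelian subgroups are closed; the group of automorphisms
-/

set_option autoImplicit false

open scoped Classical

namespace Pool.Agent.H19W.CB

section closed

variable {G : Type} [Group G] {ι : Type*} [Nonempty ι] (Γ : ι → Subgroup G)
  (hdir : ∀ i j, ∃ k, Γ k ≤ Γ i ∧ Γ k ≤ Γ j)
  (hn : ∀ i, (Γ i).Normal) (hbot : ∀ g, (∀ i, g ∈ Γ i) → g = 1)
  (hab : ∀ A : Subgroup G, A.FG → (∀ a ∈ A, ∀ b ∈ A, a * b = b * a) → Good Γ A)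

/-- separation of an element from a subgroup of an abelian group -/
lemma sep_char (C A : Subgroup G) (hAC : A ≤ C) (hC : ∀ a ∈ C, ∀ b ∈ C, a * b = b * a) (x : G)
    (hx : x ∈ C) (hxA : x ∉ A) :
    ∃ U : Subgroup G, A ≤ U ∧ x ∉ U ∧ ∀ g ∈ C, ∃ m : ℕ, 1 ≤ m ∧ g ^ m ∈ U := by
  let _ : CommGroup C := { (inferInstance : Group C) with
    mul_comm := fun a b => Subtype.ext (hC a.1 a.2 b.1 b.2) }
  let S : AddSubgroup (Additive C) := Subgroup.toAddSubgroup (A.subgroupOf C)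
  let Q := Additive C ⧸ S
  let y : Q := QuotientAddGroup.mk (Additive.ofMul ⟨x, hx⟩)
  have hy : y ≠ 0 := by
    intro h
    have h1 := (QuotientAddGroup.eq_zero_iff _).1 h
    exact hxA h1
  obtain ⟨c, hc⟩ := CharacterModule.exists_character_apply_ne_zero_of_ne_zero hy
  let f : C →* Multiplicative (AddCircle (1 : ℚ)) :=
    { toFun := fun g => Multiplicative.ofAdd (c (QuotientAddGroup.mk (Additive.ofMul g)))
      map_one' := by
        have : (QuotientAddGroup.mk (Additive.ofMul (1 : C)) : Q) = 0 := rfl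
        rw [this, map_zero]; rfl
      map_mul' := fun g h => by
        have : (QuotientAddGroup.mk (Additive.ofMul (g * h)) : Q) =
          QuotientAddGroup.mk (Additive.ofMul g) + QuotientAddGroup.mk (Additive.ofMul h) := rfl
        rw [this, map_add]; rfl }
  refine ⟨f.ker.map C.subtype, ?_, ?_, ?_⟩
  · intro a ha
    refine ⟨⟨a, hAC ha⟩, ?_, rfl⟩
    have h1 : (QuotientAddGroup.mk (Additive.ofMul (⟨a, hAC ha⟩ : C)) : Q) = 0 :=
      (QuotientAddGroup.eq_zero_iff _).2 ha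
    show Multiplicative.ofAdd (c (QuotientAddGroup.mk (Additive.ofMul (⟨a, hAC ha⟩ : C)))) = 1
    rw [h1, map_zero]; rfl
  · rintro ⟨⟨g, hg⟩, h1, h2⟩
    have h3 : g = x := h2
    subst h3
    apply hc
    exact h1
  · intro g hg
    have key : ∀ z : AddCircle (1 : ℚ), ∃ m : ℕ, 1 ≤ m ∧ m • z = 0 := by
      intro z
      induction z using QuotientAddGroup.induction_on with
      | H r =>
        refine ⟨r.den, r.den_pos, ?_⟩
        rw [← QuotientAddGroup.mk_nsmul]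
        refine (QuotientAddGroup.eq_zero_iff _).2 ?_
        rw [AddSubgroup.mem_zmultiples_iff]
        refine ⟨r.num, ?_⟩
        rw [nsmul_eq_mul, mul_comm, Rat.mul_den_eq_num]
        simp
    obtain ⟨m, hm, hm2⟩ := key (c (QuotientAddGroup.mk (Additive.ofMul (⟨g, hg⟩ : C))))
    refine ⟨m, hm, ⟨⟨g, hg⟩ ^ m, ?_, rfl⟩⟩
    show f (⟨g, hg⟩ ^ m) = 1
    rw [map_pow]
    show Multiplicative.ofAdd (m • c (QuotientAddGroup.mk (Additive.ofMul (⟨g, hg⟩ : C)))) = 1
    rw [hm2]; rfl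

include hdir hn hbot hab

omit [Nonempty ι] hdir in
/-- separation from an abelian subgroup -/
theorem sep_abelian (A : Subgroup G) (hfg : A.FG) (hcomm : ∀ a ∈ A, ∀ b ∈ A, a * b = b * a)
    (h : G) (hhA : h ∉ A) : ∃ i, ∀ a ∈ A, h * a ∉ Γ i := by
  by_contra hcon
  push Not at hcon
  have hc : ∀ b ∈ A, h * b = b * h := by
    intro b hb
    have : h * b * h⁻¹ * b⁻¹ = 1 := by
      apply hbot
      intro i
      obtain ⟨a, ha, hai⟩ := hcon i
      have e : h * b * h⁻¹ * b⁻¹ = (h * a) * (b * (h * a)⁻¹ * b⁻¹) := by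
        have : a * b = b * a := hcomm a ha b hb
        calc h * b * h⁻¹ * b⁻¹ = h * (b * a) * a⁻¹ * h⁻¹ * b⁻¹ := by group
          _ = h * (a * b) * a⁻¹ * h⁻¹ * b⁻¹ := by rw [this]
          _ = _ := by group
      rw [e]
      exact (Γ i).mul_mem hai ((hn i).conj_mem _ ((Γ i).inv_mem hai) b)
    calc h * b = (h * b * h⁻¹ * b⁻¹) * (b * h) := by group
      _ = b * h := by rw [this, one_mul]
  let C : Subgroup G := Subgroup.closure (insert h (A : Set G))
  have hAC : A ≤ C := fun a ha => Subgroup.subset_closure (Set.mem_insert_of_mem _ ha)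
  have hhC : h ∈ C := Subgroup.subset_closure (Set.mem_insert _ _)
  have hgen : ∀ a ∈ insert h (A : Set G), ∀ b ∈ insert h (A : Set G), a * b = b * a := by
    rintro a (rfl | ha) b (rfl | hb)
    · rfl
    · exact hc b hb
    · exact (hc a ha).symm
    · exact hcomm a ha b hb
  have hCcomm : ∀ a ∈ C, ∀ b ∈ C, a * b = b * a := by
    have h1 : ∀ a ∈ insert h (A : Set G), ∀ b ∈ C, a * b = b * a := by
      intro a ha b hb
      have : C ≤ Subgroup.centralizer {a} := by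
        rw [Subgroup.closure_le]
        intro x hx
        rw [SetLike.mem_coe, Subgroup.mem_centralizer_singleton_iff]
        exact hgen x hx a ha
      exact ((Subgroup.mem_centralizer_singleton_iff).mp (this hb)).symm
    intro a ha b hb
    have : C ≤ Subgroup.centralizer {b} := by
      rw [Subgroup.closure_le]
      intro x hx
      rw [SetLike.mem_coe, Subgroup.mem_centralizer_singleton_iff]
      exact h1 x hx b hb
    exact (Subgroup.mem_centralizer_singleton_iff).mp (this ha)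
  have hCfg : C.FG := by
    have : C = Subgroup.closure {h} ⊔ A := by
      rw [show C = Subgroup.closure (insert h (A : Set G)) from rfl, Set.insert_eq,
        Subgroup.closure_union, Subgroup.closure_eq]
    rw [this]
    obtain ⟨S, hS⟩ := hfg
    exact ⟨insert h S, by rw [← hS, Finset.coe_insert, Set.insert_eq, Subgroup.closure_union]⟩
  obtain ⟨U, hAU, hhU, hU⟩ := sep_char C A hAC hCcomm h hhC hhA
  obtain ⟨i, hi⟩ := hab C hCfg hCcomm U hU
  obtain ⟨a, ha, hai⟩ := hcon i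
  have h3 : h * a ∈ U := hi ⟨C.mul_mem hhC (hAC ha), hai⟩
  apply hhU
  have := U.mul_mem h3 (U.inv_mem (hAU ha))
  rwa [mul_inv_cancel_right] at this

/-- virtually abelian subgroups are closed -/
theorem virt_closed (H A : Subgroup G) (hi : A.relIndex H ≠ 0) (hfg : A.FG)
    (hAH : A ≤ H) (hcomm : ∀ a ∈ A, ∀ b ∈ A, a * b = b * a) (x : G) (hx : x ∉ H) :
    ∃ i, ∀ h ∈ H, h⁻¹ * x ∉ Γ i := by
  have hdir' : Directed (· ≥ ·) Γ := fun i j => by
    obtain ⟨k, h1, h2⟩ := hdir i j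
    exact ⟨k, h1, h2⟩
  have hfin : Finite (H ⧸ A.subgroupOf H) := by
    have : (A.subgroupOf H).FiniteIndex := ⟨hi⟩
    infer_instance
  have hch : ∀ c : H ⧸ A.subgroupOf H, ∃ i, ∀ a ∈ A, ((c.out : G)⁻¹ * x) * a ∉ Γ i := by
    intro c
    apply sep_abelian Γ hn hbot hab A hfg hcomm
    intro h
    apply hx
    have := H.mul_mem c.out.2 (hAH h)
    rwa [mul_inv_cancel_left] at this
  choose f hf using hch
  obtain ⟨z, hz⟩ := hdir'.finite_le f
  refine ⟨z, fun h hh hhz => ?_⟩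
  let c : H ⧸ A.subgroupOf H := QuotientGroup.mk ⟨h, hh⟩
  have h1 : (c.out)⁻¹ * ⟨h, hh⟩ ∈ A.subgroupOf H := by
    rw [← QuotientGroup.eq]
    exact QuotientGroup.out_eq' c
  have h2 : (c.out : G)⁻¹ * h ∈ A := h1
  have h3 := hf c _ (A.inv_mem h2)
  apply h3
  apply hz c
  have h4 := (hn z).conj_mem _ hhz ((c.out : G)⁻¹ * h)
  have e : (c.out : G)⁻¹ * h * (h⁻¹ * x) * ((c.out : G)⁻¹ * h)⁻¹ =
      (c.out : G)⁻¹ * x * ((c.out : G)⁻¹ * h)⁻¹ := by group
  rwa [e] at h4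

end closed

section aut

open Pool.Agent.R387.TC (inc homExt homExt_inc homExt_tt hom_ext extHom extHom_inc extHom_tt trivSub
  trivSub_fin centre inc_injective)

variable {n : ℕ}

/-- the action on the quotients is trivial -/
def Tv (K : CI n) (φ : MulAut (F n)) : Prop := ∀ x, φ x * x⁻¹ ∈ K.1

lemma Gm_of_Tv {K : CI n} {φ : MulAut (F n)} (h : Tv K φ) : mk φ ∈ Gm K :=
  (mem_im (inn_le_Gm' K) φ).2 ⟨1, fun x => by simpa using h x⟩

/-- from subgroups of `Out (F_n)` to their preimages in `Aut (F_n)` -/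
theorem aut_of_out (i0 : Fin n) (H : Subgroup (Out (n + 1))) (hH : Good (Gm (n := n + 1)) H)
    (U : Subgroup (MulAut (F (n + 1))))
    (hU : U.relIndex (H.comap (QuotientGroup.mk' (Inn (n + 1)))) ≠ 0) :
    ∃ K : CI (n + 1), ∀ φ, mk φ ∈ H → Tv K φ → φ ∈ U := by
  set E := H.comap (QuotientGroup.mk' (Inn (n + 1))) with hE
  have hEmem : ∀ φ, φ ∈ E ↔ mk φ ∈ H := fun φ => Iff.rfl
  have hIE : (MulAut.conj : F (n + 1) →* MulAut (F (n + 1))).range ≤ E := by
    rintro _ ⟨y, rfl⟩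
    rw [hEmem, mk_conj]
    exact H.one_mem
  have hM0 : (U.comap (MulAut.conj : F (n + 1) →* MulAut (F (n + 1)))).FiniteIndex := by
    refine ⟨?_⟩
    rw [Subgroup.index_comap]
    intro h0
    exact mt (Subgroup.relIndex_eq_zero_of_le_right hIE) hU h0
  set M := (U.comap (MulAut.conj : F (n + 1) →* MulAut (F (n + 1)))).normalCore with hM
  have hMU : M ≤ U.comap MulAut.conj := Subgroup.normalCore_le _
  obtain ⟨K2, hc2, hf2, hK2⟩ := centre i0 M
  have hT := trivSub_fin K2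
  obtain ⟨K, hK⟩ := hH (im (U ⊓ E ⊓ trivSub K2)) (fun g hg => by
    have h1 : (U ⊓ E ⊓ trivSub K2).relIndex E ≠ 0 := by
      refine Subgroup.relIndex_inf_ne_zero (Subgroup.relIndex_inf_ne_zero hU ?_) ?_
      · rw [Subgroup.relIndex_self]; exact one_ne_zero
      · refine mt (Subgroup.relIndex_eq_zero_of_le_right (le_top : E ≤ ⊤)) ?_
        rw [Subgroup.relIndex_top_right]
        exact hT.index_ne_zero
    obtain ⟨m, hm, -, h2⟩ := Subgroup.exists_pow_mem_of_relIndex_ne_zero h1 (a := g.out)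
      ((hEmem _).2 (by rwa [mk_out]))
    refine ⟨m, hm, g.out ^ m, h2.1, ?_⟩
    show (mk g.out) ^ m = g ^ m
    rw [mk_out])
  have hc1 := K.2.1
  have hf1 := K.2.2
  refine ⟨⟨K.1 ⊓ K2, inferInstance, inferInstance⟩, fun φ hφH hφ => ?_⟩
  have h1 : mk φ ∈ im (U ⊓ E ⊓ trivSub K2) :=
    hK ⟨hφH, Gm_of_Tv (fun x => (hφ x).1)⟩
  obtain ⟨ψ, hψ, h2⟩ := h1
  obtain ⟨y, hy⟩ := mk_eq (φ := ψ) (ψ := φ) h2
  have h3 : MulAut.conj y ∈ trivSub K2 := by
    have h4 : φ ∈ trivSub K2 := fun x => (hφ x).2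
    have h5 := (trivSub K2).mul_mem ((trivSub K2).inv_mem hψ.2) h4
    rwa [hy, inv_mul_cancel_left] at h5
  have h4 : y ∈ M := hK2 y (fun x => by
    have := h3 x
    rwa [MulAut.conj_apply] at this)
  rw [hy]
  exact U.mul_mem hψ.1.1 (hMU h4)

/-- the map from `Aut (F_n)` to `Out (F_{n+1})` -/
noncomputable def ao (n : ℕ) : MulAut (F n) →* Out (n + 1) :=
  (QuotientGroup.mk' (Inn (n + 1))).comp (extHom n)

lemma ao_inj (n : ℕ) : Function.Injective (ao n) := by
  rw [injective_iff_map_eq_one]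
  intro φ hφ
  have h1 : extHom n φ ∈ Inn (n + 1) := (QuotientGroup.eq_one_iff _).1 hφ
  obtain ⟨y, hy⟩ := h1
  ext z
  have h2 : y * Pool.Agent.R387.TC.tt n * y⁻¹ = Pool.Agent.R387.TC.tt n := by
    rw [← MulAut.conj_apply, hy, extHom_tt]
  have h3 : y * inc n z * y⁻¹ = inc n (φ z) := by
    rw [← MulAut.conj_apply, hy, extHom_inc]
  let r : F (n + 1) →* F n := homExt (MonoidHom.id (F n)) z
  have h4 := congrArg r h2
  have h5 := congrArg r h3
  rw [map_mul, map_mul, map_inv, homExt_tt] at h4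
  rw [map_mul, map_mul, map_inv, homExt_inc, homExt_inc] at h5
  rw [MulAut.one_apply]
  exact h5.symm.trans h4

/-- the restriction of a characteristic subgroup to a free factor -/
def resK (K : CI (n + 1)) : CI n := ⟨K.1.comap (inc n), by
  rw [Subgroup.characteristic_iff_le_comap]
  intro φ x hx
  have h1 := (Subgroup.characteristic_iff_le_comap.1 K.2.1) (extHom n φ) hx
  have h2 : extHom n φ (inc n x) ∈ K.1 := h1
  rw [extHom_inc] at h2
  exact h2, by
  have h1 : K.1.Normal := by have := K.2.1; infer_instance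
  have h2 := K.2.2
  exact Pool.Agent.R387.TC.fi_comap _ _⟩

lemma ao_Gm {K : CI (n + 1)} {φ : MulAut (F n)} (h : Tv (resK K) φ) : ao n φ ∈ Gm K := by
  have hn : K.1.Normal := by have := K.2.1; infer_instance
  apply Gm_of_Tv (K := K) (φ := extHom n φ)
  have h1 : (QuotientGroup.mk' K.1).comp (extHom n φ).toMonoidHom = QuotientGroup.mk' K.1 := by
    apply hom_ext
    · intro x
      show QuotientGroup.mk' K.1 (extHom n φ (inc n x)) = _
      rw [extHom_inc, ← mul_inv_eq_one, ← map_inv, ← map_mul, ← map_inv, ← map_mul]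
      exact (QuotientGroup.eq_one_iff _).2 (h x)
    · show QuotientGroup.mk' K.1 (extHom n φ _) = _
      rw [extHom_tt]
  intro x
  have h2 := DFunLike.congr_fun h1 x
  rw [← QuotientGroup.eq_one_iff]
  show QuotientGroup.mk' K.1 (extHom n φ x * x⁻¹) = 1
  rw [map_mul, map_inv, mul_inv_eq_one]
  exact h2

/-- virtually abelian subgroups of `Aut (F_n)` -/
theorem aut_part (hn : 1 ≤ n) (A A0 : Subgroup (MulAut (F n))) (h1 : A0 ≤ A)
    (h2 : A0.relIndex A ≠ 0) (h3 : A0.FG) (h4 : ∀ a ∈ A0, ∀ b ∈ A0, a * b = b * a) :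
    (∀ U : Subgroup (MulAut (F n)), (∀ g ∈ A, ∃ m : ℕ, 1 ≤ m ∧ g ^ m ∈ U) →
      ∃ K : CI n, ∀ φ ∈ A, Tv K φ → φ ∈ U) ∧
    (∀ φ ∉ A, ∃ K : CI n, ∀ ψ ∈ A, ¬ Tv K (ψ⁻¹ * φ)) := by
  have h01 : (⟨0, by omega⟩ : Fin (n + 1)) ≠ ⟨1, by omega⟩ := by simp
  have hne : Nonempty (CI (n + 1)) := ⟨kI le_rfl 0⟩
  have e1 : (A0.map (ao n)).relIndex (A.map (ao n)) ≠ 0 := by
    rw [Subgroup.relIndex_map_map_of_injective _ _ (ao_inj n)]
    exact h2
  have e2 : (A0.map (ao n)).FG := by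
    obtain ⟨S, hS⟩ := h3
    exact ⟨S.image (ao n), by rw [Finset.coe_image, ← MonoidHom.map_closure, hS]⟩
  have e3 : ∀ a ∈ A0.map (ao n), ∀ b ∈ A0.map (ao n), a * b = b * a := by
    rintro _ ⟨a, ha, rfl⟩ _ ⟨b, hb, rfl⟩
    rw [← map_mul, ← map_mul, h4 a ha b hb]
  have hg : Good (Gm (n := n + 1)) (A.map (ao n)) :=
    good_virt h01 _ _ (Subgroup.map_mono h1) e1 e2 e3
  refine ⟨fun U hU => ?_, fun φ hφ => ?_⟩
  · obtain ⟨K, hK⟩ := hg (U.map (ao n)) (by
      rintro _ ⟨g, hg, rfl⟩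
      obtain ⟨m, hm, h⟩ := hU g hg
      exact ⟨m, hm, g ^ m, h, map_pow _ _ _⟩)
    refine ⟨resK K, fun φ h5 h6 => ?_⟩
    obtain ⟨ψ, hψ, h7⟩ := hK ⟨⟨φ, h5, rfl⟩, ao_Gm (K := K) h6⟩
    rwa [← ao_inj n h7]
  · obtain ⟨K, hK⟩ := virt_closed Gm Gm_dir (fun K => inferInstance) (Gm_bot h01)
      (good_abelian h01) (A.map (ao n)) (A0.map (ao n)) e1 e2 (Subgroup.map_mono h1) e3 (ao n φ) (by
        rintro ⟨ψ, hψ, h7⟩
        exact hφ (by rwa [← ao_inj n h7]))
    refine ⟨resK K, fun ψ h5 h6 => ?_⟩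
    refine hK (ao n ψ) ⟨ψ, h5, rfl⟩ ?_
    rw [← map_inv, ← map_mul]
    exact ao_Gm (K := K) h6

end aut

end Pool.Agent.H19W.CB
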