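import Mathlib

/-!
# Fox calculus and the filtration of the group ring of a free group by Magnus coefficients
-/

set_option autoImplicit false

open scoped Classical

namespace Pool.Agent.H19W.CB

variable {J : Type}

/-- the group ring of the free group -/
abbrev ZF (J : Type) : Type := MonoidAlgebra ℤ (FreeGroup J)

/-- group elements -/
noncomputable def el (x : FreeGroup J) : ZF J := MonoidAlgebra.of ℤ (FreeGroup J) x

lemma el_mul (x y : FreeGroup J) : el (x * y) = el x * el y := map_mul _ _ _
lemma el_one : el (1 : FreeGroup J) = 1 := map_one _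
lemma el_inv_mul (x : FreeGroup J) : el x⁻¹ * el x = 1 := by rw [← el_mul, inv_mul_cancel, el_one]
lemma el_mul_inv (x : FreeGroup J) : el x * el x⁻¹ = 1 := by rw [← el_mul, mul_inv_cancel, el_one]

/-- the augmentation -/
noncomputable def aug : ZF J →ₐ[ℤ] ℤ := MonoidAlgebra.lift ℤ ℤ (FreeGroup J) 1

lemma aug_el (x : FreeGroup J) : aug (el x) = 1 := by
  rw [aug, el, MonoidAlgebra.lift_of]; rfl

/-- the action of an endomorphism -/
noncomputable def act (φ : FreeGroup J →* FreeGroup J) : ZF J →ₐ[ℤ] ZF J :=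
  MonoidAlgebra.lift ℤ (ZF J) (FreeGroup J) ((MonoidAlgebra.of ℤ (FreeGroup J)).comp φ)

lemma act_el (φ : FreeGroup J →* FreeGroup J) (x : FreeGroup J) : act φ (el x) = el (φ x) := by
  rw [act, el, MonoidAlgebra.lift_of]; rfl

/-- induction principle -/
lemma zf_induction {p : ZF J → Prop} (a : ZF J) (h1 : ∀ x, p (el x)) (h2 : ∀ a b, p a → p b → p (a + b))
    (h3 : ∀ (c : ℤ) a, p a → p (c • a)) : p a := by
  induction a using MonoidAlgebra.induction_on with
  | of x => exact h1 x
  | add a b ha hb => exact h2 a b ha hb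
  | smul c a ha => exact h3 c a ha

lemma aug_act (φ : FreeGroup J →* FreeGroup J) (a : ZF J) : aug (act φ a) = aug a := by
  induction a using zf_induction with
  | h1 x => rw [act_el, aug_el, aug_el]
  | h2 a b ha hb => rw [map_add, map_add, map_add, ha, hb]
  | h3 c a ha => rw [map_smul, map_smul, map_smul, ha]

/-- the matrix of a generator -/
noncomputable def foxU (j i : J) : (Matrix (Fin 2) (Fin 2) (ZF J))ˣ where
  val := !![el (FreeGroup.of i), if i = j then 1 else 0; 0, 1]
  inv := !![el (FreeGroup.of i)⁻¹, -(el (FreeGroup.of i)⁻¹ * if i = j then 1 else 0); 0, 1]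
  val_inv := by
    ext a b
    fin_cases a <;> fin_cases b <;> simp [Matrix.mul_apply, Fin.sum_univ_two, el_mul_inv]
  inv_val := by
    ext a b
    fin_cases a <;> fin_cases b <;> simp [Matrix.mul_apply, Fin.sum_univ_two, el_inv_mul]

/-- the ring homomorphism `a ↦ (a, ∂a; 0, ε a)` -/
noncomputable def foxT (j : J) : ZF J →ₐ[ℤ] Matrix (Fin 2) (Fin 2) (ZF J) :=
  MonoidAlgebra.lift ℤ _ (FreeGroup J) ((Units.coeHom _).comp (FreeGroup.lift (foxU j)))

lemma foxT_el (j : J) (x : FreeGroup J) : foxT j (el x) = ((FreeGroup.lift (foxU j) x : (Matrix _ _ _)ˣ) :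
    Matrix (Fin 2) (Fin 2) (ZF J)) := by
  rw [foxT, el, MonoidAlgebra.lift_of]; rfl

lemma foxT_el_aux (j : J) (x : FreeGroup J) :
    foxT j (el x) 0 0 = el x ∧ foxT j (el x) 1 0 = 0 ∧ foxT j (el x) 1 1 = 1 := by
  induction x using FreeGroup.induction_on with
  | C1 => rw [el_one, map_one]; simp
  | of i =>
    rw [foxT_el, FreeGroup.lift_apply_of]
    simp [foxU]
  | inv_of i _ =>
    rw [foxT_el, map_inv, FreeGroup.lift_apply_of]
    show (foxU j i).inv 0 0 = _ ∧ (foxU j i).inv 1 0 = _ ∧ (foxU j i).inv 1 1 = _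
    simp [foxU]
  | mul x y hx hy =>
    obtain ⟨x1, x2, x3⟩ := hx
    obtain ⟨y1, y2, y3⟩ := hy
    rw [el_mul, map_mul]
    simp [Matrix.mul_apply, Fin.sum_univ_two, x1, x2, x3, y1, y2, y3]

lemma foxT00 (j : J) (a : ZF J) : foxT j a 0 0 = a := by
  induction a using zf_induction with
  | h1 x => exact (foxT_el_aux j x).1
  | h2 a b ha hb => rw [map_add, Matrix.add_apply, ha, hb]
  | h3 c a ha => rw [map_smul, Matrix.smul_apply, ha]

lemma foxT11 (j : J) (a : ZF J) : foxT j a 1 1 = (aug a) • (1 : ZF J) := by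
  induction a using zf_induction with
  | h1 x => rw [(foxT_el_aux j x).2.2, aug_el, one_smul]
  | h2 a b ha hb => rw [map_add, Matrix.add_apply, ha, hb, map_add, add_smul]
  | h3 c a ha => rw [map_smul, Matrix.smul_apply, ha, map_smul, smul_assoc]

/-- the Fox derivative -/
noncomputable def fd (j : J) : ZF J →ₗ[ℤ] ZF J where
  toFun a := foxT j a 0 1
  map_add' a b := by rw [map_add, Matrix.add_apply]
  map_smul' c a := by rw [map_smul, Matrix.smul_apply]; rfl

lemma fd_mul (j : J) (a b : ZF J) : fd j (a * b) = aug b • fd j a + a * fd j b := by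
  show foxT j (a * b) 0 1 = aug b • foxT j a 0 1 + a * foxT j b 0 1
  rw [map_mul, Matrix.mul_apply, Fin.sum_univ_two, foxT00, foxT11, mul_smul_comm, mul_one, add_comm]

lemma fd_one (j : J) : fd j 1 = 0 := by
  show foxT j 1 0 1 = 0
  rw [map_one]; simp

lemma fd_gen (j i : J) : fd j (el (FreeGroup.of i)) = if i = j then 1 else 0 := by
  show foxT j _ 0 1 = _
  rw [foxT_el, FreeGroup.lift_apply_of]
  simp [foxU]

/-- `x_j - 1` -/
noncomputable def xm (j : J) : ZF J := el (FreeGroup.of j) - 1

lemma aug_xm (j : J) : aug (xm j) = 0 := by rw [xm, map_sub, aug_el, map_one, sub_self]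

lemma fd_xm (j i : J) : fd j (xm i) = if i = j then 1 else 0 := by
  rw [xm, map_sub, fd_gen, fd_one, sub_zero]

/-- the fundamental formula -/
theorem fundamental [Fintype J] (a : ZF J) : a = aug a • (1 : ZF J) + ∑ j, fd j a * xm j := by
  have hmul : ∀ a b : ZF J, a = aug a • (1 : ZF J) + ∑ j, fd j a * xm j →
      b = aug b • (1 : ZF J) + ∑ j, fd j b * xm j →
      a * b = aug (a * b) • (1 : ZF J) + ∑ j, fd j (a * b) * xm j := by
    intro a b ha hb
    have h1 : ∑ j, fd j (a * b) * xm j = aug b • ∑ j, fd j a * xm j + a * ∑ j, fd j b * xm j := by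
      rw [Finset.smul_sum, Finset.mul_sum, ← Finset.sum_add_distrib]
      refine Finset.sum_congr rfl fun j _ => ?_
      rw [fd_mul, add_mul, smul_mul_assoc, mul_assoc]
    have h2 : ∑ j, fd j a * xm j = a - aug a • (1 : ZF J) := by
      rw [eq_sub_iff_add_eq, add_comm]; exact ha.symm
    have h3 : ∑ j, fd j b * xm j = b - aug b • (1 : ZF J) := by
      rw [eq_sub_iff_add_eq, add_comm]; exact hb.symm
    rw [h1, h2, h3, map_mul, smul_sub, mul_sub, mul_smul_comm, mul_one, smul_smul, mul_comm (aug b)]
    abel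
  induction a using zf_induction with
  | h1 x =>
    induction x using FreeGroup.induction_on with
    | C1 => rw [el_one, map_one, one_smul]; simp [fd_one]
    | of i =>
      rw [aug_el, one_smul]
      simp [fd_gen, xm]
    | inv_of i h =>
      have h4 : ∀ j, fd j (el (FreeGroup.of i)⁻¹) = - (el (FreeGroup.of i)⁻¹ * fd j (el (FreeGroup.of i))) := by
        intro j
        have := fd_mul j (el (FreeGroup.of i)⁻¹) (el (FreeGroup.of i))
        rw [el_inv_mul, fd_one, aug_el, one_smul] at this
        exact eq_neg_of_add_eq_zero_left this.symm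
      rw [aug_el, one_smul] at h ⊢
      have h5 : ∑ j, fd j (el (FreeGroup.of i)) * xm j = el (FreeGroup.of i) - 1 := by
        rw [eq_sub_iff_add_eq, add_comm]; exact h.symm
      have h6 : ∑ j, fd j (el (FreeGroup.of i)⁻¹) * xm j = -(el (FreeGroup.of i)⁻¹ *
          ∑ j, fd j (el (FreeGroup.of i)) * xm j) := by
        rw [Finset.mul_sum, ← Finset.sum_neg_distrib]
        refine Finset.sum_congr rfl fun j _ => ?_
        rw [h4, neg_mul, mul_assoc]
      rw [h6, h5, mul_sub, el_inv_mul, mul_one]
      abel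
    | mul x y hx hy => rw [el_mul]; exact hmul _ _ hx hy
  | h2 a b ha hb =>
    conv_lhs => rw [ha, hb]
    rw [map_add, add_smul]
    simp only [map_add, add_mul, Finset.sum_add_distrib]
    abel
  | h3 c a ha =>
    conv_lhs => rw [ha]
    rw [map_smul, smul_add, smul_assoc, Finset.smul_sum]
    congr 1
    refine Finset.sum_congr rfl fun j _ => ?_
    rw [map_smul, smul_mul_assoc]

/-- the Magnus coefficients; the head of the list is the last letter of the word -/
noncomputable def cr : List J → ZF J → ℤ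
  | [], a => aug a
  | j :: L, a => cr L (fd j a)

lemma cr_nil (a : ZF J) : cr [] a = aug a := rfl
lemma cr_cons (j : J) (L : List J) (a : ZF J) : cr (j :: L) a = cr L (fd j a) := rfl

lemma cr_add (L : List J) (a b : ZF J) : cr L (a + b) = cr L a + cr L b := by
  induction L generalizing a b with
  | nil => exact map_add _ _ _
  | cons j L ih => rw [cr_cons, map_add, ih]; rfl

lemma cr_smul (L : List J) (c : ℤ) (a : ZF J) : cr L (c • a) = c * cr L a := by
  induction L generalizing a with
  | nil => rw [cr_nil, map_smul]; rfl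
  | cons j L ih => rw [cr_cons, map_smul, ih]; rfl

lemma cr_neg (L : List J) (a : ZF J) : cr L (-a) = - cr L a := by
  have := cr_smul L (-1) a
  simpa using this

lemma cr_sub (L : List J) (a b : ZF J) : cr L (a - b) = cr L a - cr L b := by
  rw [sub_eq_add_neg, cr_add, cr_neg, sub_eq_add_neg]

lemma cr_zero (L : List J) : cr L (0 : ZF J) = 0 := by
  have := cr_smul L 0 (0 : ZF J)
  simpa using this

lemma cr_sum {ι : Type*} (s : Finset ι) (f : ι → ZF J) (L : List J) :
    cr L (∑ i ∈ s, f i) = ∑ i ∈ s, cr L (f i) := by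
  induction s using Finset.induction_on with
  | empty => simp [cr_zero]
  | insert i s hi ih => rw [Finset.sum_insert hi, Finset.sum_insert hi, cr_add, ih]

lemma cr_one (L : List J) (hL : L ≠ []) : cr L (1 : ZF J) = 0 := by
  cases L with
  | nil => exact absurd rfl hL
  | cons j L => rw [cr_cons, fd_one, cr_zero]

/-- right multiplication by `x_j - 1` -/
lemma cr_mul_xm (l j : J) (L : List J) (u : ZF J) :
    cr (l :: L) (u * xm j) = if j = l then cr L u else 0 := by
  rw [cr_cons, fd_mul, aug_xm, zero_smul, zero_add, fd_xm]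
  split_ifs with h
  · rw [mul_one]
  · rw [mul_zero, cr_zero]

/-- left multiplication by `x_j - 1` -/
lemma cr_xm_mul (l j : J) (L : List J) (u : ZF J) :
    cr (L ++ [l]) (xm j * u) = if j = l then cr L u else 0 := by
  induction L generalizing u with
  | nil =>
    rw [List.nil_append, cr_cons, cr_nil, fd_mul, map_add, map_mul, aug_xm, zero_mul, add_zero, fd_xm,
      map_smul, cr_nil]
    split_ifs with h
    · simp
    · simp
  | cons m L ih =>
    rw [List.cons_append, cr_cons, fd_mul, cr_add, ih, cr_smul, fd_xm]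
    have : cr (L ++ [l]) (if j = m then (1 : ZF J) else 0) = 0 := by
      split_ifs
      · exact cr_one _ (by simp)
      · exact cr_zero _
    rw [this, mul_zero, zero_add]
    rfl

/-- the filtration modulo `q` -/
def V (q d : ℕ) (a : ZF J) : Prop := ∀ L : List J, L.length < d → (q : ℤ) ∣ cr L a

lemma V_zero (q d : ℕ) : V q d (0 : ZF J) := fun L _ => by rw [cr_zero]; exact dvd_zero _

lemma V.add {q d : ℕ} {a b : ZF J} (ha : V q d a) (hb : V q d b) : V q d (a + b) :=
  fun L hL => by rw [cr_add]; exact dvd_add (ha L hL) (hb L hL)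

lemma V.neg {q d : ℕ} {a : ZF J} (ha : V q d a) : V q d (-a) :=
  fun L hL => by rw [cr_neg]; exact (dvd_neg).2 (ha L hL)

lemma V.sub {q d : ℕ} {a b : ZF J} (ha : V q d a) (hb : V q d b) : V q d (a - b) := by
  rw [sub_eq_add_neg]; exact ha.add hb.neg

lemma V.smul {q d : ℕ} {a : ZF J} (c : ℤ) (ha : V q d a) : V q d (c • a) :=
  fun L hL => by rw [cr_smul]; exact dvd_mul_of_dvd_right (ha L hL) _

lemma V_smul_dvd {q : ℕ} (d : ℕ) (a : ZF J) {c : ℤ} (hc : (q : ℤ) ∣ c) : V q d (c • a) :=
  fun L _ => by rw [cr_smul]; exact dvd_mul_of_dvd_left hc _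

lemma V.mono {q d d' : ℕ} {a : ZF J} (ha : V q d a) (h : d' ≤ d) : V q d' a :=
  fun L hL => ha L (lt_of_lt_of_le hL h)

lemma V.mod {d : ℕ} {a : ZF J} (q : ℕ) (ha : V 0 d a) : V q d a := by
  intro L hL
  have := ha L hL
  rw [Nat.cast_zero, zero_dvd_iff] at this
  rw [this]; exact dvd_zero _

lemma V_triv (q : ℕ) (a : ZF J) : V q 0 a := fun _ h => absurd h (Nat.not_lt_zero _)

lemma V_succ {q d : ℕ} {a : ZF J} : V q (d + 1) a ↔ (q : ℤ) ∣ aug a ∧ ∀ j, V q d (fd j a) := by
  constructor
  · intro h
    exact ⟨h [] (by simp), fun j L hL => h (j :: L) (by simpa using hL)⟩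
  · rintro ⟨h1, h2⟩ L hL
    cases L with
    | nil => exact h1
    | cons j L => exact h2 j L (by simpa using hL)

lemma V_sum {ι : Type*} (s : Finset ι) (f : ι → ZF J) {q d : ℕ} (h : ∀ i ∈ s, V q d (f i)) :
    V q d (∑ i ∈ s, f i) := by
  intro L hL
  rw [cr_sum]
  exact Finset.dvd_sum fun i hi => h i hi L hL

theorem V.mul {q p r : ℕ} {a b : ZF J} (ha : V q p a) (hb : V q r b) : V q (p + r) (a * b) := by
  intro L
  induction L generalizing a b p r with
  | nil =>
    intro hL
    rw [cr_nil, map_mul]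
    rcases Nat.eq_zero_or_pos r with h | h
    · exact dvd_mul_of_dvd_left (ha [] (by simpa [h] using hL)) _
    · exact dvd_mul_of_dvd_right (hb [] (by simpa using h)) _
  | cons j L ih =>
    intro hL
    rw [List.length_cons] at hL
    rw [cr_cons, fd_mul, cr_add, cr_smul]
    cases r with
    | zero =>
      cases p with
      | zero => omega
      | succ p =>
        refine dvd_add (dvd_mul_of_dvd_right ((V_succ.1 ha).2 j L (by omega)) _) ?_
        exact ih ha (V_triv q _) (by omega)
    | succ r =>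
      refine dvd_add (dvd_mul_of_dvd_left (V_succ.1 hb).1 _) ?_
      exact ih ha ((V_succ.1 hb).2 j) (by omega)

lemma V_el_sub_one (q : ℕ) (x : FreeGroup J) : V q 1 (el x - 1) := by
  intro L hL
  have : L = [] := List.length_eq_zero_iff.mp (by omega)
  rw [this, cr_nil, map_sub, aug_el, map_one, sub_self]
  exact dvd_zero _

lemma V_xm (q : ℕ) (j : J) : V q 1 (xm j) := V_el_sub_one q _

lemma V.mul_left {q d : ℕ} {a : ZF J} (b : ZF J) (ha : V q d a) : V q d (b * a) := by
  have := (V_triv q b).mul ha
  rwa [zero_add] at this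

lemma V.mul_right {q d : ℕ} {a : ZF J} (b : ZF J) (ha : V q d a) : V q d (a * b) :=
  ha.mul (V_triv q b)

lemma act_fundamental [Fintype J] (φ : FreeGroup J →* FreeGroup J) (a : ZF J) :
    act φ a = aug a • (1 : ZF J) + ∑ j, act φ (fd j a) * (el (φ (FreeGroup.of j)) - 1) := by
  conv_lhs => rw [fundamental a]
  rw [map_add, map_smul, map_one, map_sum]
  congr 1
  refine Finset.sum_congr rfl fun j _ => ?_
  rw [map_mul, xm, map_sub, act_el, map_one]

/-- the filtration is invariant under endomorphisms -/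
theorem V.act [Fintype J] {q d : ℕ} {a : ZF J} (φ : FreeGroup J →* FreeGroup J) (ha : V q d a) :
    V q d (act φ a) := by
  induction d generalizing a with
  | zero => exact V_triv q _
  | succ d ih =>
    rw [act_fundamental]
    refine (V_smul_dvd _ _ (V_succ.1 ha).1).add (V_sum _ _ fun j _ => ?_)
    exact (ih ((V_succ.1 ha).2 j)).mul (V_el_sub_one q _)

/-- endomorphisms acting trivially on the abelianization act trivially on the graded pieces -/
theorem V.act_sub [Fintype J] {q d : ℕ} {a : ZF J} (φ : FreeGroup J →* FreeGroup J)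
    (hφ : ∀ j, V 0 2 (el (φ (FreeGroup.of j)) - el (FreeGroup.of j))) (ha : V q d a) :
    V q (d + 1) (CB.act φ a - a) := by
  induction d generalizing a with
  | zero =>
    intro L hL
    have : L = [] := List.length_eq_zero_iff.mp (by omega)
    rw [this, cr_nil, map_sub, aug_act, sub_self]
    exact dvd_zero _
  | succ d ih =>
    have e : CB.act φ a - a = ∑ j, ((CB.act φ (fd j a) - fd j a) * (el (φ (FreeGroup.of j)) - 1) +
        fd j a * (el (φ (FreeGroup.of j)) - el (FreeGroup.of j))) := by
      have h1 := act_fundamental φ a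
      have h2 := fundamental a
      have h3 : CB.act φ a - a = (aug a • (1 : ZF J) + ∑ j, CB.act φ (fd j a) *
          (el (φ (FreeGroup.of j)) - 1)) - (aug a • (1 : ZF J) + ∑ j, fd j a * xm j) := by
        rw [← h1, ← h2]
      rw [h3, add_sub_add_left_eq_sub, ← Finset.sum_sub_distrib]
      refine Finset.sum_congr rfl fun j _ => ?_
      rw [xm]
      noncomm_ring
    rw [e]
    refine V_sum _ _ fun j _ => ?_
    refine V.add ?_ ?_
    · exact (ih ((V_succ.1 ha).2 j)).mul (V_el_sub_one q _)
    · exact ((V_succ.1 ha).2 j).mul ((hφ j).mod q)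

end Pool.Agent.H19W.CB
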