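import Pool.Agent.H19W.CB.Fox

/-!
# A representation of the free group over `ℤ[X]` and its traces
-/

set_option autoImplicit false

open scoped Classical

namespace Pool.Agent.H19W.CB

open Polynomial

section

/-- the matrices of the letters -/
noncomputable def MM (a b s : ℤ) : Matrix (Fin 2) (Fin 2) ℤ[X] :=
  !![1 + C s * (C b * X ^ 2 + X), - C s * X ^ 2;
     C s * (C (a * b) * X ^ 2 + C (a + b) * X), 1 - C s * (C a * X ^ 2 + X)]

lemma MM_mul (a : ℤ) : MM a (a + 1) 1 * MM (a + 1) a (-1) = 1 := by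
  unfold MM
  refine Matrix.ext fun i k => ?_
  fin_cases i <;> fin_cases k <;>
    simp [Matrix.mul_apply, Fin.sum_univ_two] <;> ring

lemma MM_mul' (a : ℤ) : MM (a + 1) a (-1) * MM a (a + 1) 1 = 1 := by
  unfold MM
  refine Matrix.ext fun i k => ?_
  fin_cases i <;> fin_cases k <;>
    simp [Matrix.mul_apply, Fin.sum_univ_two] <;> ring

variable {n : ℕ}

/-- the unit of a generator -/
noncomputable def gU (j : Fin n) : (Matrix (Fin 2) (Fin 2) ℤ[X])ˣ where
  val := MM (2 * (j : ℤ)) (2 * (j : ℤ) + 1) 1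
  inv := MM (2 * (j : ℤ) + 1) (2 * (j : ℤ)) (-1)
  val_inv := MM_mul _
  inv_val := MM_mul' _

/-- the representation -/
noncomputable def Th : FreeGroup (Fin n) →* (Matrix (Fin 2) (Fin 2) ℤ[X])ˣ := FreeGroup.lift gU

/-- the slope of a letter -/
def sl (s : Fin n × Bool) : ℤ := if s.2 then 2 * (s.1 : ℤ) else 2 * (s.1 : ℤ) + 1
/-- the slope of the inverse letter -/
def sl' (s : Fin n × Bool) : ℤ := if s.2 then 2 * (s.1 : ℤ) + 1 else 2 * (s.1 : ℤ)
/-- the sign -/
def sg (s : Fin n × Bool) : ℤ := if s.2 then 1 else -1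

lemma sg_ne (s : Fin n × Bool) : sg s ≠ 0 := by unfold sg; split_ifs <;> norm_num

lemma sl_ne {s t : Fin n × Bool} (h : s.1 = t.1 → s.2 = t.2) : sl' s - sl t ≠ 0 := by
  obtain ⟨i, b⟩ := s
  obtain ⟨j, c⟩ := t
  simp only at h
  unfold sl sl'
  by_cases hij : i = j
  · subst hij
    have := h rfl
    subst this
    cases b <;> simp
  · have hne : (i : ℤ) ≠ (j : ℤ) := by
      intro h2
      apply hij
      exact Fin.ext (by exact_mod_cast h2)
    cases b <;> cases c <;> simp <;> omega

/-- the matrix of a letter -/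
noncomputable def Ms (s : Fin n × Bool) : Matrix (Fin 2) (Fin 2) ℤ[X] := MM (sl s) (sl' s) (sg s)

lemma Th_mk (L : List (Fin n × Bool)) :
    ((Th (FreeGroup.mk L) : (Matrix (Fin 2) (Fin 2) ℤ[X])ˣ) : Matrix (Fin 2) (Fin 2) ℤ[X]) =
      (L.map Ms).prod := by
  induction L with
  | nil =>
    have : FreeGroup.mk ([] : List (Fin n × Bool)) = 1 := rfl
    rw [this, map_one]; simp
  | cons s L ih =>
    have h1 : FreeGroup.mk (s :: L) = FreeGroup.mk [s] * FreeGroup.mk L := by
      rw [FreeGroup.mul_mk]; rfl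
    rw [h1, map_mul, Units.val_mul, ih, List.map_cons, List.prod_cons]
    congr 1
    obtain ⟨i, b⟩ := s
    cases b with
    | true =>
      have : FreeGroup.mk [(i, true)] = FreeGroup.of i := rfl
      rw [this, Th, FreeGroup.lift_apply_of]
      rfl
    | false =>
      have : FreeGroup.mk [(i, false)] = (FreeGroup.of i)⁻¹ := rfl
      rw [this, Th, map_inv, FreeGroup.lift_apply_of]
      rfl

/-- the left vector -/
def lv (s : Fin n × Bool) : Fin 2 → ℤ := ![1, sl s]
/-- the right vector -/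
def rv (s : Fin n × Bool) : Fin 2 → ℤ := ![sl' s, -1]

/-- the leading coefficients -/
def Lead (m : ℕ) (M : Matrix (Fin 2) (Fin 2) ℤ[X]) (s t : Fin n × Bool) : Prop :=
  (∀ i k, (M i k).natDegree ≤ 2 * m) ∧
    ∃ κ : ℤ, κ ≠ 0 ∧ ∀ i k, (M i k).coeff (2 * m) = κ * (lv s i * rv t k)

lemma MM_entry (a b s : ℤ) (i k : Fin 2) : ∃ α β : ℤ, MM a b s i k =
    C α + C β * X + C (s * (![1, a] i * ![b, -1] k)) * X ^ 2 := by
  unfold MM
  fin_cases i <;> fin_cases k
  · refine ⟨1, s, ?_⟩
    simp [-eq_intCast]; ring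
  · refine ⟨0, 0, ?_⟩
    simp [-eq_intCast]
  · refine ⟨0, s * (a + b), ?_⟩
    simp [-eq_intCast]; ring
  · refine ⟨1, -s, ?_⟩
    simp [-eq_intCast]; ring

lemma coeff_two (α β γ : ℤ) : (C α + C β * X + C γ * X ^ 2 : ℤ[X]).coeff 2 = γ := by
  rw [coeff_add, coeff_add, coeff_C_mul, coeff_C_mul, coeff_X_pow, coeff_C, coeff_X]
  norm_num

lemma deg_two (α β γ : ℤ) : (C α + C β * X + C γ * X ^ 2 : ℤ[X]).natDegree ≤ 2 := by
  compute_degree

lemma lead_letter (s : Fin n × Bool) : Lead 1 (Ms s) s s := by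
  refine ⟨?_, sg s, sg_ne s, ?_⟩
  · intro i k
    obtain ⟨α, β, h⟩ := MM_entry (sl s) (sl' s) (sg s) i k
    unfold Ms
    rw [h]
    exact deg_two _ _ _
  · intro i k
    obtain ⟨α, β, h⟩ := MM_entry (sl s) (sl' s) (sg s) i k
    unfold Ms
    rw [h]
    exact coeff_two _ _ _

lemma lead_mul {m m' : ℕ} {M M' : Matrix (Fin 2) (Fin 2) ℤ[X]} {s s' t t' : Fin n × Bool}
    (h : Lead m M s s') (h' : Lead m' M' t t') (hst : s'.1 = t.1 → s'.2 = t.2) :
    Lead (m + m') (M * M') s t' := by
  obtain ⟨h1, κ, hκ, h2⟩ := h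
  obtain ⟨h1', κ', hκ', h2'⟩ := h'
  refine ⟨?_, κ * κ' * (sl' s' - sl t), mul_ne_zero (mul_ne_zero hκ hκ') (sl_ne hst), ?_⟩
  · intro i k
    rw [Matrix.mul_apply, Fin.sum_univ_two]
    refine natDegree_add_le_of_degree_le ?_ ?_
    · refine (natDegree_mul_le_of_le (h1 i 0) (h1' 0 k)).trans (by omega)
    · refine (natDegree_mul_le_of_le (h1 i 1) (h1' 1 k)).trans (by omega)
  · intro i k
    rw [Matrix.mul_apply, Fin.sum_univ_two, coeff_add, mul_add 2 m m',
      coeff_mul_add_eq_of_natDegree_le (h1 i 0) (h1' 0 k), coeff_mul_add_eq_of_natDegree_le (h1 i 1) (h1' 1 k),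
      h2, h2, h2', h2']
    unfold lv rv
    simp
    ring

lemma lead_list (s : Fin n × Bool) (L : List (Fin n × Bool)) (h : FreeGroup.IsReduced (s :: L)) :
    Lead (L.length + 1) ((s :: L).map Ms).prod s ((s :: L).getLast (by simp)) := by
  induction L generalizing s with
  | nil =>
    simp only [List.map_cons, List.map_nil, List.prod_cons, List.prod_nil, mul_one,
      List.length_nil, List.getLast_singleton]
    exact lead_letter s
  | cons t L ih =>
    have h1 : FreeGroup.IsReduced (t :: L) := by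
      unfold FreeGroup.IsReduced at h ⊢
      exact (List.isChain_cons_cons.1 h).2
    have h2 := ih t h1
    have h3 : s.1 = t.1 → s.2 = t.2 := by
      unfold FreeGroup.IsReduced at h
      exact (List.isChain_cons_cons.1 h).1
    have h4 := lead_mul (lead_letter s) h2 h3
    rw [List.map_cons, List.prod_cons, List.length_cons]
    have e : 1 + (L.length + 1) = L.length + 1 + 1 := by omega
    rw [e] at h4
    rw [List.getLast_cons (by simp)]
    exact h4

/-- the trace -/
noncomputable def tr (x : FreeGroup (Fin n)) : ℤ[X] :=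
  Matrix.trace ((Th x : (Matrix (Fin 2) (Fin 2) ℤ[X])ˣ) : Matrix (Fin 2) (Fin 2) ℤ[X])

lemma tr_conj (h x : FreeGroup (Fin n)) : tr (h * x * h⁻¹) = tr x := by
  unfold tr
  rw [map_mul, map_mul, Units.val_mul, Units.val_mul, Matrix.trace_mul_comm, ← mul_assoc,
    ← Units.val_mul, ← map_mul, inv_mul_cancel, map_one, Units.val_one, one_mul]

lemma tr_of (j : Fin n) : tr (FreeGroup.of j) = 2 + X ^ 2 := by
  unfold tr
  rw [Th, FreeGroup.lift_apply_of]
  show Matrix.trace (MM (2 * (j : ℤ)) (2 * (j : ℤ) + 1) 1) = _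
  rw [Matrix.trace_fin_two]
  unfold MM
  simp
  ring

/-- elements with the trace of a generator are conjugate to a letter -/
theorem conj_letter (y : FreeGroup (Fin n)) (h : tr y = 2 + X ^ 2) :
    ∃ (g : FreeGroup (Fin n)) (s : Fin n × Bool), y = g * FreeGroup.mk [s] * g⁻¹ := by
  set L := y.toWord with hL
  have hred : FreeGroup.IsReduced L := FreeGroup.isReduced_toWord
  have hcyc := FreeGroup.reduceCyclically.isCyclicallyReduced hred
  have hconj := FreeGroup.reduceCyclically.conj_conjugator_reduceCyclically L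
  set Z := FreeGroup.reduceCyclically L with hZ
  have hy : y = FreeGroup.mk (FreeGroup.reduceCyclically.conjugator L) * FreeGroup.mk Z *
      (FreeGroup.mk (FreeGroup.reduceCyclically.conjugator L))⁻¹ := by
    rw [FreeGroup.inv_mk, FreeGroup.mul_mk, FreeGroup.mul_mk, hconj, hL, FreeGroup.mk_toWord]
  have htr : tr (FreeGroup.mk Z) = 2 + X ^ 2 := by
    rw [← h, hy, tr_conj]
  cases hZc : Z with
  | nil =>
    exfalso
    rw [hZc] at htr
    have h1 : FreeGroup.mk ([] : List (Fin n × Bool)) = 1 := rfl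
    rw [h1, tr, map_one, Units.val_one, Matrix.trace_one] at htr
    have h2 := congrArg (fun p : ℤ[X] => p.coeff 2) htr
    simp [coeff_ofNat_succ] at h2
  | cons s Z' =>
    cases hZ' : Z' with
    | nil =>
      rw [hZc, hZ'] at hy
      exact ⟨_, s, hy⟩
    | cons t Z'' =>
      exfalso
      rw [hZc] at htr hcyc
      obtain ⟨hd, κ, hκ, hc⟩ := lead_list s Z' hcyc.1
      rw [tr, Th_mk, Matrix.trace_fin_two] at htr
      have h2 := congrArg (fun p : ℤ[X] => p.coeff (2 * (Z'.length + 1))) htr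
      simp only [coeff_add] at h2
      rw [hc, hc] at h2
      have h3 : (2 : ℤ[X]).coeff (2 * (Z'.length + 1)) = 0 := by
        have : (2 : ℤ[X]) = C 2 := rfl
        rw [this, coeff_C, if_neg (by omega)]
      have h4 : (X ^ 2 : ℤ[X]).coeff (2 * (Z'.length + 1)) = 0 := by
        rw [coeff_X_pow, if_neg]
        rw [hZ', List.length_cons]
        omega
      rw [h3, h4] at h2
      have h5 := hcyc.2 ((s :: Z').getLast (by simp)) (by
        rw [List.getLast?_eq_some_getLast (by simp)]; rfl) s (by simp)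
      have h6 := sl_ne h5
      have h7 : κ * (sl' ((s :: Z').getLast (by simp)) - sl s) = 0 := by
        unfold lv rv at h2
        simp only [Matrix.cons_val_zero, Matrix.cons_val_one] at h2
        linear_combination h2
      rcases mul_eq_zero.mp h7 with h8 | h8
      · exact hκ h8
      · exact h6 h8

/-- the representation is faithful -/
theorem Th_faithful (x : FreeGroup (Fin n)) (h : Th x = 1) : x = 1 := by
  by_contra hx
  have hne : x.toWord ≠ [] := fun h => hx (FreeGroup.toWord_eq_nil_iff.mp h)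
  obtain ⟨s, L, hL⟩ := List.exists_cons_of_ne_nil hne
  have hred : FreeGroup.IsReduced (s :: L) := hL ▸ FreeGroup.isReduced_toWord
  obtain ⟨hd, κ, hκ, hc⟩ := lead_list s L hred
  have h1 : ((s :: L).map Ms).prod = 1 := by
    rw [← Th_mk, ← hL, FreeGroup.mk_toWord, h, Units.val_one]
  have h2 := hc 0 1
  rw [h1] at h2
  unfold lv rv at h2
  simp at h2
  exact hκ h2

end

end Pool.Agent.H19W.CB
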