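import Pool.Agent.H19W.CB.Filt
import Pool.Agent.H19W.CB.Tr

/-!
# The intersection of the filtration
-/

set_option autoImplicit false

open scoped Classical

namespace Pool.Agent.H19W.CB

open Polynomial

variable {n : ℕ}

/-- the representation of the group ring -/
noncomputable def ThA : ZF (Fin n) →ₐ[ℤ] Matrix (Fin 2) (Fin 2) ℤ[X] :=
  MonoidAlgebra.lift ℤ _ (FreeGroup (Fin n)) ((Units.coeHom _).comp Th)

lemma ThA_el (x : FreeGroup (Fin n)) :
    ThA (el x) = ((Th x : (Matrix (Fin 2) (Fin 2) ℤ[X])ˣ) : Matrix (Fin 2) (Fin 2) ℤ[X]) := by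
  rw [ThA, el, MonoidAlgebra.lift_of]; rfl

/-- all entries are divisible by `X ^ d` -/
def XD (d : ℕ) (M : Matrix (Fin 2) (Fin 2) ℤ[X]) : Prop := ∀ i k, (X ^ d : ℤ[X]) ∣ M i k

lemma XD.mul {d d' : ℕ} {M M' : Matrix (Fin 2) (Fin 2) ℤ[X]} (h : XD d M) (h' : XD d' M') :
    XD (d + d') (M * M') := by
  intro i k
  rw [Matrix.mul_apply, pow_add]
  exact Finset.dvd_sum fun j _ => mul_dvd_mul (h i j) (h' j k)

lemma XD_triv (M : Matrix (Fin 2) (Fin 2) ℤ[X]) : XD 0 M := fun i k => by
  rw [pow_zero]; exact one_dvd _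

lemma XD_xm (j : Fin n) : XD 1 (ThA (xm j)) := by
  rw [xm, map_sub, map_one, ThA_el, Th, FreeGroup.lift_apply_of]
  show XD 1 (MM (2 * (j : ℤ)) (2 * (j : ℤ) + 1) 1 - 1)
  intro i k
  rw [pow_one, X_dvd_iff]
  unfold MM
  fin_cases i <;> fin_cases k <;> simp

/-- the filtration and the representation -/
theorem XD_of_V {d : ℕ} {a : ZF (Fin n)} (h : V 0 d a) : XD d (ThA a) := by
  induction d generalizing a with
  | zero => exact XD_triv _
  | succ d ih =>
    have h1 := V_succ.1 h
    have h2 : aug a = 0 := by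
      have := h1.1
      rwa [Nat.cast_zero, zero_dvd_iff] at this
    rw [fundamental a, h2, zero_smul, zero_add, map_sum]
    intro i k
    rw [Matrix.sum_apply]
    refine Finset.dvd_sum fun j _ => ?_
    rw [map_mul]
    exact ((ih (h1.2 j)).mul (XD_xm j)) i k

lemma eq_zero_of_X_pow_dvd {p : ℤ[X]} (h : ∀ d, X ^ d ∣ p) : p = 0 := by
  ext k
  rw [coeff_zero]
  exact X_pow_dvd_iff.1 (h (k + 1)) k (Nat.lt_succ_self k)

/-- elements close to the identity to all orders -/
theorem eq_one_of_V {x : FreeGroup (Fin n)} (h : ∀ d, V 0 d (el x - 1)) : x = 1 := by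
  apply Th_faithful
  apply Units.ext
  rw [Units.val_one, ← ThA_el, ← sub_eq_zero, ← map_one ThA, ← map_sub]
  ext1 i k
  rw [Matrix.zero_apply]
  exact eq_zero_of_X_pow_dvd fun d => XD_of_V (h d) i k

/-- the traces of elements which are conjugate to all orders -/
theorem tr_eq {y z : FreeGroup (Fin n)}
    (h : ∀ d, ∃ g : ZF (Fin n), V 0 1 (g - 1) ∧ V 0 d (el y * g - g * el z)) : tr y = tr z := by
  rw [← sub_eq_zero]
  apply eq_zero_of_X_pow_dvd
  intro d
  obtain ⟨g, hg1, hg2⟩ := h d
  set G := ThA g with hG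
  have h1 := XD_of_V hg2
  have h2 := h1.mul (XD_triv G.adjugate)
  rw [map_sub, map_mul, map_mul, ← hG, add_zero] at h2
  have h3 : X ^ d ∣ Matrix.trace ((ThA (el y) * G - G * ThA (el z)) * G.adjugate) := by
    rw [Matrix.trace_fin_two]
    exact dvd_add (h2 0 0) (h2 1 1)
  have h4 : Matrix.trace ((ThA (el y) * G - G * ThA (el z)) * G.adjugate) =
      (tr y - tr z) * G.det := by
    rw [sub_mul, Matrix.trace_sub, mul_assoc, Matrix.mul_adjugate, mul_assoc G,
      Matrix.trace_mul_comm G, mul_assoc, Matrix.adjugate_mul, ThA_el, ThA_el]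
    simp only [Algebra.mul_smul_comm, mul_one, Matrix.trace_smul, smul_eq_mul]
    unfold tr
    ring
  rw [h4] at h3
  have h5 : ¬ (X : ℤ[X]) ∣ G.det := by
    rw [X_dvd_iff]
    have h6 := XD_of_V hg1
    rw [map_sub, map_one, ← hG] at h6
    have h7 : ∀ i k, (G i k).coeff 0 = if i = k then 1 else 0 := by
      intro i k
      have := h6 i k
      rw [pow_one, X_dvd_iff, Matrix.sub_apply, coeff_sub, Matrix.one_apply] at this
      rw [sub_eq_zero.mp this]
      split_ifs <;> simp
    rw [Matrix.det_fin_two, coeff_sub, mul_coeff_zero, mul_coeff_zero, h7, h7, h7, h7]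
    simp
  exact (prime_X).pow_dvd_of_dvd_mul_right d h5 h3

lemma cr_single_mul (l : Fin n) (x y : FreeGroup (Fin n)) :
    cr [l] (el (x * y)) = cr [l] (el x) + cr [l] (el y) := by
  rw [el_mul, cr_cons, cr_cons, cr_cons, fd_mul, cr_add, cr_smul, aug_el, one_mul, cr_nil, cr_nil,
    cr_nil, map_mul, aug_el, one_mul]

lemma cr_single_inv (l : Fin n) (x : FreeGroup (Fin n)) :
    cr [l] (el x⁻¹) = - cr [l] (el x) := by
  have h := cr_single_mul l x x⁻¹
  rw [mul_inv_cancel, el_one, cr_one _ (by simp)] at h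
  linarith

lemma cr_single_of (l j : Fin n) : cr [l] (el (FreeGroup.of j)) = if j = l then 1 else 0 := by
  rw [cr_cons, fd_gen, cr_nil]
  split_ifs <;> simp

/-- a generator is mapped to a conjugate of itself -/
theorem conj_gen {φ : MulAut (FreeGroup (Fin n))} (h : ∀ d, ∃ g, W d φ g) (j : Fin n) :
    ∃ y : FreeGroup (Fin n), φ (FreeGroup.of j) = y * FreeGroup.of j * y⁻¹ := by
  have h1 : tr (φ (FreeGroup.of j)) = 2 + X ^ 2 := by
    rw [← tr_of j]
    apply tr_eq
    intro d
    obtain ⟨g, hg⟩ := h d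
    exact ⟨g, hg.1, hg.2 _⟩
  obtain ⟨y, ⟨i, b⟩, hy⟩ := conj_letter _ h1
  obtain ⟨g, hg⟩ := h 2
  have h2 := hg.ia le_rfl (FreeGroup.of j)
  have h3 : ∀ l, cr [l] (el (φ (FreeGroup.of j))) = cr [l] (el (FreeGroup.of j)) := by
    intro l
    have := h2 [l] (by simp)
    rw [Nat.cast_zero, zero_dvd_iff, cr_sub] at this
    exact sub_eq_zero.mp this
  have h4 : ∀ l, cr [l] (el (φ (FreeGroup.of j))) = cr [l] (el (FreeGroup.mk [(i, b)])) := by
    intro l
    rw [hy, cr_single_mul, cr_single_mul, cr_single_inv]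
    ring
  have h5 := (h4 i).symm.trans (h3 i)
  rw [cr_single_of] at h5
  cases b with
  | true =>
    have e : FreeGroup.mk [(i, true)] = FreeGroup.of i := rfl
    rw [e, cr_single_of, if_pos rfl] at h5
    have : j = i := by
      by_contra hne
      rw [if_neg hne] at h5
      norm_num at h5
    subst this
    exact ⟨y, hy⟩
  | false =>
    have e : FreeGroup.mk [(i, false)] = (FreeGroup.of i)⁻¹ := rfl
    rw [e, cr_single_inv, cr_single_of, if_pos rfl] at h5
    exfalso
    split_ifs at h5

/-- words with a letter different from `l0` -/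
lemma decomp {J : Type} (l0 : J) (w : List J) (h : ∃ m ∈ w, m ≠ l0) :
    ∃ (w' : List J) (m : J) (k : ℕ), m ≠ l0 ∧ w = w' ++ m :: List.replicate k l0 := by
  induction w using List.reverseRecOn with
  | nil => obtain ⟨m, hm, _⟩ := h; simp at hm
  | append_singleton w a ih =>
    by_cases ha : a = l0
    · subst ha
      have : ∃ m ∈ w, m ≠ a := by
        obtain ⟨m, hm, hne⟩ := h
        rw [List.mem_append, List.mem_singleton] at hm
        rcases hm with hm | hm
        · exact ⟨m, hm, hne⟩
        · exact absurd hm hne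
      obtain ⟨w', m, k, hm, rfl⟩ := ih this
      refine ⟨w', m, k + 1, hm, ?_⟩
      rw [List.replicate_succ']
      simp
    · exact ⟨w, a, 0, ha, by simp⟩

/-- the centralizer of a letter -/
lemma centr {J : Type} (l0 : J) (u : List J → ℤ) (d : ℕ)
    (h : ∀ L : List J, L.length < d → ad u l0 L = 0) (w : List J) (hw : w.length + 1 < d)
    (hm : ∃ m ∈ w, m ≠ l0) : u w = 0 := by
  obtain ⟨w', m, k, hne, rfl⟩ := decomp l0 w hm
  clear hm
  induction k generalizing w' with
  | zero =>
    have h1 := h (l0 :: (w' ++ [m])) (by simpa using hw)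
    unfold ad at h1
    rw [if_pos (by simp), if_neg] at h1
    · simpa using h1
    · rw [← List.cons_append, List.getLast?_concat]
      simpa using hne
  | succ k ih =>
    have e : w' ++ m :: List.replicate (k + 1) l0 = (w' ++ m :: List.replicate k l0) ++ [l0] := by
      rw [List.replicate_succ']; simp
    rw [e] at hw ⊢
    have h1 := h (l0 :: ((w' ++ m :: List.replicate k l0) ++ [l0])) (by simpa using hw)
    unfold ad at h1
    rw [if_pos (by simp), if_pos (by rw [← List.cons_append, List.getLast?_concat]),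
      ← List.cons_append, List.dropLast_concat] at h1
    have h2 := ih (l0 :: w') (by
      simp only [List.length_append, List.length_cons, List.length_replicate, List.length_nil] at hw ⊢
      omega)
    rw [List.cons_append, List.tail_cons] at h1
    rw [List.cons_append] at h2
    rw [h2, sub_zero] at h1
    exact h1

/-- the projection to the cyclic group of a generator -/
noncomputable def pr (l0 : Fin n) : FreeGroup (Fin n) →* FreeGroup (Fin n) :=
  FreeGroup.lift fun j => if j = l0 then FreeGroup.of j else 1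

lemma act_pr (l0 : Fin n) (a : ZF (Fin n)) :
    act (pr l0) a = aug a • (1 : ZF (Fin n)) + act (pr l0) (fd l0 a) * xm l0 := by
  conv_lhs => rw [act_fundamental]
  congr 1
  rw [Finset.sum_eq_single l0]
  · rw [pr, FreeGroup.lift_apply_of, if_pos rfl, xm]
  · intro j _ hj
    rw [pr, FreeGroup.lift_apply_of, if_neg hj, el_one, sub_self, mul_zero]
  · intro h; exact absurd (Finset.mem_univ _) h

lemma cr_pr (l0 : Fin n) (L : List (Fin n)) (a : ZF (Fin n)) :
    cr L (act (pr l0) a) = if ∀ m ∈ L, m = l0 then cr L a else 0 := by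
  induction L generalizing a with
  | nil => rw [cr_nil, aug_act, if_pos (by simp)]; rfl
  | cons l L ih =>
    rw [act_pr, cr_add, cr_smul, cr_one _ (by simp), mul_zero, zero_add, cr_mul_xm, ih]
    by_cases h1 : l0 = l
    · subst h1
      rw [if_pos rfl]
      by_cases h2 : ∀ m ∈ L, m = l0
      · rw [if_pos h2, if_pos (by simpa using h2)]; rfl
      · rw [if_neg h2, if_neg (by simpa using h2)]
    · rw [if_neg h1, if_neg]
      intro h
      exact h1 (h l (by simp)).symm

/-- **the intersection of the filtration** consists of the inner automorphisms -/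
theorem inner_of_W {l0 l1 : Fin n} (h01 : l0 ≠ l1) {φ : MulAut (FreeGroup (Fin n))}
    (h : ∀ d, ∃ g, W d φ g) : ∃ y, φ = MulAut.conj y := by
  obtain ⟨h0, hh0⟩ := conj_gen h l0
  obtain ⟨h1, hh1⟩ := conj_gen h l1
  set ψ : MulAut (FreeGroup (Fin n)) := MulAut.conj h0⁻¹ * φ with hψ
  have hW : ∀ d, ∃ g, W d ψ g := by
    intro d
    obtain ⟨g, hg⟩ := h d
    exact ⟨_, (W_conj d h0⁻¹).mul hg⟩
  have hψ0 : ψ (FreeGroup.of l0) = FreeGroup.of l0 := by
    rw [hψ, MulAut.mul_apply, hh0, MulAut.conj_apply]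
    group
  set y := h0⁻¹ * h1 with hy
  have hψ1 : ψ (FreeGroup.of l1) = y * FreeGroup.of l1 * y⁻¹ := by
    rw [hψ, MulAut.mul_apply, hh1, MulAut.conj_apply, hy]
    group
  set p := pr l0 y with hp
  have key : ∀ d g, W (d + 1) ψ g → V 0 d (g - el p) := by
    intro d g hg
    -- `g` commutes with `x_{l0}`
    have e0 : ∀ L : List (Fin n), L.length < d + 1 → ad (fun w => cr w g) l0 L = 0 := by
      intro L hL
      have h2 := hg.2 (FreeGroup.of l0) L hL
      rw [Nat.cast_zero, zero_dvd_iff, dl, hψ0] at h2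
      have h3 : el (FreeGroup.of l0) * g - g * el (FreeGroup.of l0) = - (g * xm l0 - xm l0 * g) := by
        unfold xm; noncomm_ring
      rw [h3, cr_neg, cr_comm] at h2
      exact neg_eq_zero.mp h2
    have z0 := centr l0 (fun w => cr w g) (d + 1) e0
    -- `y⁻¹ g` commutes with `x_{l1}`
    set g2 := el y⁻¹ * g with hg2
    have hgg : g = el y * g2 := by
      rw [hg2, ← mul_assoc, el_mul_inv, one_mul]
    have e1 : ∀ L : List (Fin n), L.length < d + 1 → ad (fun w => cr w g2) l1 L = 0 := by
      intro L hL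
      have h2 := ((hg.2 (FreeGroup.of l1)).mul_left (el y⁻¹)) L hL
      have h3 : el y⁻¹ * dl ψ g (FreeGroup.of l1) = - (g2 * xm l1 - xm l1 * g2) := by
        rw [dl, hψ1, el_mul, el_mul, hg2]
        have h4 := el_inv_mul y
        unfold xm
        calc el y⁻¹ * (el y * el (FreeGroup.of l1) * el y⁻¹ * g - g * el (FreeGroup.of l1))
            = (el y⁻¹ * el y) * el (FreeGroup.of l1) * el y⁻¹ * g -
              el y⁻¹ * g * el (FreeGroup.of l1) := by noncomm_ring
          _ = _ := by rw [h4]; noncomm_ring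
      rw [h3, Nat.cast_zero, zero_dvd_iff, cr_neg, cr_comm] at h2
      exact neg_eq_zero.mp h2
    have z1 := centr l1 (fun w => cr w g2) (d + 1) e1
    have haug : aug g2 = 1 := by
      have h2 := hg.1 [] (by simp)
      rw [Nat.cast_zero, zero_dvd_iff, cr_nil, map_sub, map_one, sub_eq_zero] at h2
      rw [hg2, map_mul, aug_el, h2, one_mul]
    have a1 : V 0 d (act (pr l0) g - g) := by
      intro L hL
      rw [Nat.cast_zero, zero_dvd_iff, cr_sub, cr_pr]
      split_ifs with hall
      · exact sub_self _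
      · push Not at hall
        rw [zero_sub, neg_eq_zero]
        exact z0 L (by omega) hall
    have a2 : V 0 d (act (pr l0) g2 - 1) := by
      intro L hL
      rw [Nat.cast_zero, zero_dvd_iff, cr_sub, cr_pr]
      cases L with
      | nil => rw [if_pos (by simp), cr_nil, cr_nil, haug, map_one, sub_self]
      | cons l L =>
        rw [cr_one _ (by simp), sub_zero]
        split_ifs with hall
        · refine z1 (l :: L) (by omega) ⟨l, by simp, ?_⟩
          rw [hall l (by simp)]
          exact h01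
        · rfl
    have e : g - el p = - (act (pr l0) g - g) + el p * (act (pr l0) g2 - 1) := by
      have h2 : act (pr l0) g = el p * act (pr l0) g2 := by
        conv_lhs => rw [hgg]
        rw [map_mul, act_el]
      rw [mul_sub, ← h2]
      noncomm_ring
    rw [e]
    exact a1.neg.add (a2.mul_left _)
  have hfin : ∀ x, ψ x = p * x * p⁻¹ := by
    intro x
    have h2 : ∀ d, V 0 d (el (ψ x * (p * x * p⁻¹)⁻¹) - 1) := by
      intro d
      obtain ⟨g, hg⟩ := hW (d + 1)
      have h3 := key d g hg
      have e : el (ψ x * (p * x * p⁻¹)⁻¹) - 1 =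
          (dl ψ g x - (el (ψ x) * (g - el p) - (g - el p) * el x)) * (el x⁻¹ * el p⁻¹) := by
        have h4 := el_mul_inv x
        have h5 := el_mul_inv p
        have h6 : ψ x * (p * x * p⁻¹)⁻¹ = ψ x * p * (x⁻¹ * p⁻¹) := by group
        rw [h6, el_mul, el_mul, el_mul]
        unfold dl
        calc el (ψ x) * el p * (el x⁻¹ * el p⁻¹) - 1
            = el (ψ x) * el p * (el x⁻¹ * el p⁻¹) - el p * (el x * el x⁻¹) * el p⁻¹ := by
              rw [h4, mul_one, h5]
          _ = _ := by noncomm_ring
      rw [e]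
      exact ((((hg.2 x).mono (Nat.le_succ d))).sub ((h3.mul_left _).sub (h3.mul_right _))).mul_right _
    have h3 := eq_one_of_V h2
    exact mul_inv_eq_one.mp h3
  refine ⟨h0 * p, ?_⟩
  ext x
  have h2 : φ x = h0 * ψ x * h0⁻¹ := by
    rw [hψ, MulAut.mul_apply, MulAut.conj_apply]
    group
  rw [h2, hfin, MulAut.conj_apply]
  group

end Pool.Agent.H19W.CB
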