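import Pool.Agent.H19W.CB.Abs
import Pool.Agent.H19W.CB.Chev

/-!
# Congruence topologies and abelian subgroups: the linear part
-/

set_option autoImplicit false

namespace Pool.Agent.H19W.CB

open NumberField

section

variable {G : Type*} [Group G] {C : Type} [CommRing C]

/-- the elements acting trivially modulo `I` -/
def Kr (X : G →* C) (I : Ideal C) : Subgroup G :=
  ((Ideal.Quotient.mk I : C →+* C ⧸ I).toMonoidHom.comp X).ker

lemma mem_Kr (X : G →* C) (I : Ideal C) (g : G) : g ∈ Kr X I ↔ X g - 1 ∈ I := by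
  rw [Kr, MonoidHom.mem_ker, ← Ideal.Quotient.eq_zero_iff_mem, map_sub, map_one, sub_eq_zero]
  rfl

variable [Algebra ℚ C] [Module.Finite ℚ C] {ι : Type*} (Γ : ι → Subgroup G)
  (hdir : ∀ i j, ∃ k, Γ k ≤ Γ i ∧ Γ k ≤ Γ j) (R : Subring C) [Module.Finite ℤ R]
  (X : G →* C) (hR : ∀ g, X g ∈ R)
  (hc : ∀ q : ℕ, 1 ≤ q → ∃ i, ∀ g ∈ Γ i, ∃ y ∈ R, X g = 1 + q * y)

include hdir hR hc

omit [Algebra ℚ C] [Module.Finite ℚ C] in
/-- the layers of the unipotent part -/
theorem layer2 (J : Ideal C) (j : ℕ) (hj : 1 ≤ j) (hB : Good Γ (Kr X (J ^ (j + 1)))) :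
    Good Γ (Kr X (J ^ j)) := by
  let I : Ideal R := (J ^ (j + 1)).comap R.subtype
  refine step Γ hdir (P := R ⧸ I) _ _ ?_ (fun g => Ideal.Quotient.mk I (⟨X g, hR g⟩ - 1)) ?_ ?_ ?_ hB
  · intro g hg
    rw [mem_Kr] at hg ⊢
    exact Ideal.pow_le_pow_right (Nat.le_succ j) hg
  · intro g hg h hh
    rw [mem_Kr] at hg hh
    rw [← map_add, Ideal.Quotient.eq]
    show (X (g * h) - 1) - ((X g - 1) + (X h - 1)) ∈ J ^ (j + 1)
    have e : (X (g * h) - 1) - ((X g - 1) + (X h - 1)) = (X g - 1) * (X h - 1) := by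
      rw [map_mul]; ring
    rw [e]
    have h1 := Ideal.mul_mem_mul hg hh
    rw [← pow_add] at h1
    exact Ideal.pow_le_pow_right (by omega) h1
  · intro g _ h0
    rw [mem_Kr]
    rw [Ideal.Quotient.eq_zero_iff_mem] at h0
    exact h0
  · intro M hM
    obtain ⟨i, hi⟩ := hc M hM
    refine ⟨i, fun g _ hg => ?_⟩
    obtain ⟨y, hy, e⟩ := hi g hg
    refine ⟨Ideal.Quotient.mk I ⟨y, hy⟩, ?_⟩
    rw [nsmul_eq_mul, ← map_natCast (Ideal.Quotient.mk I), ← map_mul]
    congr 1
    apply Subtype.ext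
    show X g - 1 = M * y
    rw [e]; ring

omit [Algebra ℚ C] [Module.Finite ℚ C] in
/-- all layers of the unipotent part -/
theorem layers2 (J : Ideal C) (N : ℕ) (hB : Good Γ (Kr X (J ^ (N + 1)))) : Good Γ (Kr X J) := by
  have : ∀ N, Good Γ (Kr X (J ^ (N + 1))) → Good Γ (Kr X J) := by
    intro N
    induction N with
    | zero => intro h; simpa using h
    | succ N ih => intro h; exact ih (layer2 Γ hdir R X hR hc J (N + 1) (by omega) h)
  exact this N hB

omit [Algebra ℚ C] [Module.Finite ℚ C] in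
/-- the layer of a homomorphism to a number field -/
theorem layer1' (K : Type) [Field K] [NumberField K] (f : C →+* K) (A B : Subgroup G) (hAB : B ≤ A)
    (hker : ∀ g ∈ A, f (X g) = 1 → g ∈ B) (hB : Good Γ B) : Good Γ A := by
  have hint : ∀ r ∈ R, IsIntegral ℤ (f r) := by
    intro r hr
    have h1 : IsIntegral ℤ (⟨r, hr⟩ : R) := IsIntegral.of_finite ℤ _
    exact h1.map (f.comp R.subtype).toIntAlgHom
  let φ : G →* K := f.toMonoidHom.comp X
  have hφ : ∀ g, IsIntegral ℤ (φ g) := fun g => hint _ (hR g)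
  let T : G →* (𝓞 K)ˣ := (RingOfIntegers.restrict_monoidHom φ hφ).toHomUnits
  have hT : ∀ g, (((T g : (𝓞 K)ˣ) : 𝓞 K) : K) = f (X g) := fun g => rfl
  refine step Γ hdir (P := Additive (𝓞 K)ˣ) A B hAB
    (fun g => Additive.ofMul (T g)) ?_ ?_ ?_ hB
  · intro g _ h _
    rw [map_mul]; rfl
  · intro g hg h0
    apply hker g hg
    have h1 : T g = 1 := h0
    rw [← hT g, h1]
    simp
  · intro M hM
    obtain ⟨Q, hQ, hch⟩ := chevalley K M hM
    obtain ⟨i, hi⟩ := hc Q hQ
    refine ⟨i, fun g _ hg => ?_⟩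
    obtain ⟨y, hy, e⟩ := hi g hg
    obtain ⟨y', hy'⟩ : ∃ y' : 𝓞 K, (y' : K) = f y := ⟨⟨f y, hint y hy⟩, rfl⟩
    obtain ⟨b, hb⟩ := hch (T g) ⟨y', by
      have h1 : algebraMap (𝓞 K) K (1 + Q * y') = 1 + Q * f y := by
        rw [map_add, map_one, map_mul, map_natCast, show algebraMap (𝓞 K) K y' = f y from hy']
      have h2 : f (X g) = 1 + Q * f y := by
        rw [e, map_add, map_one, map_mul, map_natCast]
      exact RingOfIntegers.coe_injective ((hT g).trans (h2.trans h1.symm))⟩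
    exact ⟨Additive.ofMul b, by rw [hb]; rfl⟩

/-- the layer of a maximal ideal -/
theorem layer1 (m : Ideal C) (hm : m.IsMaximal) (B : Subgroup G) (hB : Good Γ (B ⊓ Kr X m)) :
    Good Γ B := by
  let _ : Field (C ⧸ m) := Ideal.Quotient.field m
  have : CharZero (C ⧸ m) := algebraRat.charZero _
  have hfin : Module.Finite ℚ (C ⧸ m) := inferInstance
  have hnf : NumberField (C ⧸ m) := by
    refine @NumberField.mk _ _ inferInstance ?_
    convert hfin
    exact Subsingleton.elim _ _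
  refine layer1' Γ hdir R X hR hc (C ⧸ m) (Ideal.Quotient.mk m) B (B ⊓ Kr X m) inf_le_left ?_ hB
  intro g hg h
  refine Subgroup.mem_inf.2 ⟨hg, ?_⟩
  rw [mem_Kr, ← Ideal.Quotient.eq_zero_iff_mem, map_sub, map_one, h, sub_self]

/-- the linear part -/
theorem linear (hB : Good Γ X.ker) : Good Γ (⊤ : Subgroup G) := by
  classical
  have hart : IsArtinianRing C := IsArtinianRing.of_finite ℚ C
  obtain ⟨N, hN⟩ := IsArtinianRing.isNilpotent_jacobson_bot (R := C)
  have h1 : Good Γ (Kr X (Ideal.jacobson (⊥ : Ideal C))) := by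
    refine layers2 Γ hdir R X hR hc _ N ?_
    have : Kr X (Ideal.jacobson (⊥ : Ideal C) ^ (N + 1)) = X.ker := by
      ext g
      rw [mem_Kr, pow_succ, hN]
      simp [MonoidHom.mem_ker, sub_eq_zero]
    rw [this]
    exact hB
  have hfin : Finite (MaximalSpectrum C) := inferInstance
  have := Fintype.ofFinite (MaximalSpectrum C)
  have h2 : ∀ s : Finset (MaximalSpectrum C), Good Γ (⨅ p ∈ s, Kr X p.asIdeal) →
      Good Γ (⊤ : Subgroup G) := by
    intro s
    induction s using Finset.induction_on with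
    | empty => intro h; simpa using h
    | insert p s hp ih =>
      intro h
      rw [Finset.iInf_insert, inf_comm] at h
      exact ih (layer1 Γ hdir R X hR hc p.asIdeal p.isMaximal _ h)
  apply h2 Finset.univ
  have : (⨅ p ∈ (Finset.univ : Finset (MaximalSpectrum C)), Kr X p.asIdeal) =
      Kr X (Ideal.jacobson (⊥ : Ideal C)) := by
    ext g
    simp only [Subgroup.mem_iInf, mem_Kr, Finset.mem_univ, true_implies]
    rw [Ideal.jacobson, Ideal.mem_sInf]
    constructor
    · rintro h J ⟨_, hJ⟩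
      exact h ⟨J, hJ⟩
    · intro h p
      exact h ⟨bot_le, p.isMaximal⟩
  rw [this]
  exact h1

end

end Pool.Agent.H19W.CB
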