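import Pool.Agent.H19W.CB.Lin

/-!
# Congruence topologies and abelian subgroups: matrices
-/

set_option autoImplicit false

namespace Pool.Agent.H19W.CB

theorem linear_matrix {G : Type*} [Group G] {ι : Type*} (Γ : ι → Subgroup G)
    (hdir : ∀ i j, ∃ k, Γ k ≤ Γ i ∧ Γ k ≤ Γ j) (n : ℕ) (ρ : G →* Matrix (Fin n) (Fin n) ℤ)
    (hcomm : ∀ g h, ρ g * ρ h = ρ h * ρ g)
    (hc : ∀ q : ℕ, 1 ≤ q → ∃ i, ∀ g ∈ Γ i, ∃ Y : Matrix (Fin n) (Fin n) ℤ, ρ g = 1 + q * Y)
    (hB : Good Γ ρ.ker) : Good Γ (⊤ : Subgroup G) := by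
  let cst : Matrix (Fin n) (Fin n) ℤ →+* Matrix (Fin n) (Fin n) ℚ := (Int.castRingHom ℚ).mapMatrix
  have hcst : Function.Injective cst := by
    intro A B h
    ext i j
    have := congrFun (congrFun h i) j
    simpa [cst] using this
  let S : Set (Matrix (Fin n) (Fin n) ℚ) := Set.range fun g => cst (ρ g)
  have hS : ∀ a ∈ S, ∀ b ∈ S, a * b = b * a := by
    rintro _ ⟨g, rfl⟩ _ ⟨h, rfl⟩
    show cst _ * cst _ = cst _ * cst _
    rw [← map_mul cst, ← map_mul cst, hcomm]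
  let C := Algebra.adjoin ℚ S
  have hcm := Algebra.isMulCommutative_adjoin ℚ hS
  let _ : CommRing C := { (inferInstance : Ring C) with mul_comm := fun a b => hcm.is_comm.comm a b }
  let X : G →* C :=
    { toFun := fun g => ⟨cst (ρ g), Algebra.subset_adjoin ⟨g, rfl⟩⟩
      map_one' := by
        apply Subtype.ext
        show cst (ρ 1) = 1
        rw [map_one, map_one]
      map_mul' := fun g h => by
        apply Subtype.ext
        show cst (ρ (g * h)) = cst (ρ g) * cst (ρ h)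
        rw [map_mul, map_mul] }
  let R : Subring C := cst.range.comap (C.val : C →+* Matrix (Fin n) (Fin n) ℚ)
  have hRmem : ∀ c : C, c ∈ R ↔ ∃ Y, cst Y = (c : Matrix (Fin n) (Fin n) ℚ) := fun c => Iff.rfl
  have hfinR : Module.Finite ℤ R := by
    choose f hf using fun c : R => (hRmem c.1).1 c.2
    let F : R →+ Matrix (Fin n) (Fin n) ℤ :=
      { toFun := f
        map_zero' := by apply hcst; rw [hf, map_zero]; rfl
        map_add' := fun a b => by apply hcst; rw [hf, map_add, hf, hf]; rfl }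
    refine Module.Finite.of_injective (F.toIntLinearMap) ?_
    intro a b hab
    have h1 : f a = f b := hab
    have h2 := hf a
    rw [h1, hf b] at h2
    exact Subtype.ext (Subtype.ext h2.symm)
  refine linear Γ hdir R X (fun g => ⟨ρ g, rfl⟩) ?_ ?_
  · intro q hq
    obtain ⟨i, hi⟩ := hc q hq
    refine ⟨i, fun g hg => ?_⟩
    obtain ⟨Y, hY⟩ := hi g hg
    have hYC : cst Y ∈ C := by
      have h1 : cst Y = (q : ℚ)⁻¹ • (cst (ρ g) - 1) := by
        rw [hY, map_add, map_one, map_mul, map_natCast, add_sub_cancel_left, ← nsmul_eq_mul,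
          ← Nat.cast_smul_eq_nsmul ℚ q (cst Y), inv_smul_smul₀]
        exact_mod_cast (by omega : q ≠ 0)
      rw [h1]
      exact C.smul_mem (C.sub_mem (Algebra.subset_adjoin ⟨g, rfl⟩) C.one_mem) _
    refine ⟨⟨cst Y, hYC⟩, ⟨Y, rfl⟩, ?_⟩
    apply Subtype.ext
    show cst (ρ g) = 1 + (q : Matrix (Fin n) (Fin n) ℚ) * cst Y
    rw [hY, map_add, map_one, map_mul, map_natCast]
  · have : X.ker = ρ.ker := by
      ext g
      rw [MonoidHom.mem_ker, MonoidHom.mem_ker]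
      constructor
      · intro h
        apply hcst
        rw [map_one]
        exact congrArg Subtype.val h
      · intro h
        apply Subtype.ext
        show cst (ρ g) = 1
        rw [h, map_one]
    rw [this]
    exact hB

/-- passing to a subgroup -/
theorem good_sub {G : Type*} [Group G] {ι : Type*} (Γ : ι → Subgroup G) (A B : Subgroup G)
    (hBA : B ≤ A) (hB : Good Γ B) : Good (fun i => (Γ i).subgroupOf A) (B.subgroupOf A) := by
  intro U hU
  obtain ⟨i, hi⟩ := hB (U.map A.subtype) (fun g hg => by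
    obtain ⟨m, hm, h⟩ := hU ⟨g, hBA hg⟩ hg
    exact ⟨m, hm, ⟨_, h, rfl⟩⟩)
  refine ⟨i, ?_⟩
  rintro g ⟨hg1, hg2⟩
  obtain ⟨u, hu, e⟩ := hi ⟨hg1, hg2⟩
  rwa [← Subtype.ext e]

theorem good_top {G : Type*} [Group G] {ι : Type*} (Γ : ι → Subgroup G) (A : Subgroup G)
    (h : Good (fun i => (Γ i).subgroupOf A) (⊤ : Subgroup A)) : Good Γ A := by
  intro U hU
  obtain ⟨i, hi⟩ := h (U.subgroupOf A) (fun g _ => hU g g.2)
  exact ⟨i, fun g hg => hi (x := ⟨g, hg.1⟩) ⟨trivial, hg.2⟩⟩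

/-- the linear part, for a subgroup with commuting images -/
theorem linear_sub {G : Type*} [Group G] {ι : Type*} (Γ : ι → Subgroup G)
    (hdir : ∀ i j, ∃ k, Γ k ≤ Γ i ∧ Γ k ≤ Γ j) (n : ℕ) (ρ : G →* Matrix (Fin n) (Fin n) ℤ)
    (A : Subgroup G) (hcomm : ∀ g ∈ A, ∀ h ∈ A, ρ g * ρ h = ρ h * ρ g)
    (hc : ∀ q : ℕ, 1 ≤ q → ∃ i, ∀ g ∈ Γ i, ∃ Y : Matrix (Fin n) (Fin n) ℤ, ρ g = 1 + q * Y)
    (hB : Good Γ (A ⊓ ρ.ker)) : Good Γ A := by
  apply good_top
  refine linear_matrix (fun i => (Γ i).subgroupOf A) (fun i j => ?_) n (ρ.comp A.subtype)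
    (fun g h => hcomm g g.2 h h.2) (fun q hq => ?_) ?_
  · obtain ⟨k, h1, h2⟩ := hdir i j
    exact ⟨k, fun g hg => h1 hg, fun g hg => h2 hg⟩
  · obtain ⟨i, hi⟩ := hc q hq
    exact ⟨i, fun g hg => hi g hg⟩
  · have h1 := good_sub Γ A (A ⊓ ρ.ker) inf_le_left hB
    have : (A ⊓ ρ.ker).subgroupOf A = (ρ.comp A.subtype).ker := by
      ext g
      simp [Subgroup.mem_subgroupOf, MonoidHom.mem_ker]
    rwa [this] at h1

end Pool.Agent.H19W.CB
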