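import Pool.Agent.H19W.CB.Int
import Pool.Agent.H19W.CB.Mat

/-!
# Virtually abelian subgroups of `Out (F_n)`
-/

set_option autoImplicit false

open scoped Classical

namespace Pool.Agent.H19W.CB

variable {n : ℕ}

/-- the free group of rank `n` -/
abbrev F (n : ℕ) : Type := FreeGroup (Fin n)

/-- the group of the inner automorphisms -/
def Inn (n : ℕ) : Subgroup (MulAut (F n)) := (MulAut.conj : F n →* MulAut (F n)).range

instance : (Inn n).Normal where
  conj_mem := by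
    rintro _ ⟨y, rfl⟩ φ
    refine ⟨φ y, ?_⟩
    ext x
    simp [MulAut.conj_apply, MulAut.mul_apply]

/-- the outer automorphism group -/
abbrev Out (n : ℕ) : Type := MulAut (F n) ⧸ Inn n

/-- the projection -/
def mk (φ : MulAut (F n)) : Out n := (φ : Out n)

lemma mk_mul (φ ψ : MulAut (F n)) : mk (φ * ψ) = mk φ * mk ψ := rfl

lemma mk_out (g : Out n) : mk g.out = g := QuotientGroup.out_eq' g

lemma mk_eq {φ ψ : MulAut (F n)} (h : mk φ = mk ψ) : ∃ y, ψ = φ * MulAut.conj y := by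
  have h1 : φ⁻¹ * ψ ∈ Inn n := QuotientGroup.eq.1 h
  obtain ⟨y, hy⟩ := h1
  exact ⟨y, by rw [hy, mul_inv_cancel_left]⟩

lemma mk_conj (y : F n) : mk (MulAut.conj y) = 1 :=
  (QuotientGroup.eq_one_iff _).2 ⟨y, rfl⟩

/-- the image of a subgroup -/
def im (B : Subgroup (MulAut (F n))) : Subgroup (Out n) := B.map (QuotientGroup.mk' (Inn n))

lemma mem_im {B : Subgroup (MulAut (F n))} (hB : Inn n ≤ B) (φ : MulAut (F n)) :
    mk φ ∈ im B ↔ φ ∈ B := by
  constructor
  · rintro ⟨ψ, hψ, h⟩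
    obtain ⟨y, hy⟩ := mk_eq (φ := ψ) (ψ := φ) h
    rw [hy]
    exact B.mul_mem hψ (hB ⟨y, rfl⟩)
  · intro h
    exact ⟨φ, h, rfl⟩

lemma mem_im_out {B : Subgroup (MulAut (F n))} (hB : Inn n ≤ B) (g : Out n) :
    g ∈ im B ↔ g.out ∈ B := by
  rw [← mem_im hB, mk_out]

/-- the index set: the characteristic subgroups of finite index -/
abbrev CI (n : ℕ) : Type := {K : Subgroup (F n) // K.Characteristic ∧ K.FiniteIndex}

/-- acting on `F / K` as an inner automorphism -/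
def Gm' (K : CI n) : Subgroup (MulAut (F n)) where
  carrier := {φ | ∃ y, ∀ x, φ x * (y * x * y⁻¹)⁻¹ ∈ K.1}
  one_mem' := ⟨1, fun x => by simp [K.1.one_mem]⟩
  mul_mem' := by
    rintro φ ψ ⟨y, hy⟩ ⟨z, hz⟩
    have hn : K.1.Normal := by have := K.2.1; infer_instance
    refine ⟨y * z, fun x => ?_⟩
    -- φ (ψ x) = φ (k z x z⁻¹) ≡ y z x z⁻¹ y⁻¹
    have h1 := hy (z * x * z⁻¹)
    have h2 : φ (ψ x * (z * x * z⁻¹)⁻¹) ∈ K.1 := by
      have := (Subgroup.characteristic_iff_le_comap.1 K.2.1) φ (hz x)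
      exact this
    have e : (φ * ψ) x * (y * z * x * (y * z)⁻¹)⁻¹ =
        φ (ψ x * (z * x * z⁻¹)⁻¹) * (φ (z * x * z⁻¹) * (y * (z * x * z⁻¹) * y⁻¹)⁻¹) := by
      rw [MulAut.mul_apply, map_mul, map_inv]
      group
    rw [e]
    exact K.1.mul_mem h2 h1
  inv_mem' := by
    rintro φ ⟨y, hy⟩
    have hn : K.1.Normal := by have := K.2.1; infer_instance
    refine ⟨y⁻¹, fun x => ?_⟩
    have h1 := hy (φ⁻¹ x)
    have h0 : φ (φ⁻¹ x) = x := MulAut.apply_inv_self _ _ _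
    rw [h0] at h1
    have h2 := hn.conj_mem _ (K.1.inv_mem h1) y⁻¹
    have e : φ⁻¹ x * (y⁻¹ * x * y⁻¹⁻¹)⁻¹ = y⁻¹ * (x * (y * φ⁻¹ x * y⁻¹)⁻¹)⁻¹ * y⁻¹⁻¹ := by group
    rw [e]
    exact h2

lemma mem_Gm' (K : CI n) (φ : MulAut (F n)) :
    φ ∈ Gm' K ↔ ∃ y, ∀ x, φ x * (y * x * y⁻¹)⁻¹ ∈ K.1 := Iff.rfl

lemma inn_le_Gm' (K : CI n) : Inn n ≤ Gm' K := by
  rintro _ ⟨y, rfl⟩
  refine ⟨y, fun x => ?_⟩
  rw [MulAut.conj_apply, mul_inv_cancel]
  exact K.1.one_mem

/-- the congruence subgroups of `Out (F_n)` -/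
def Gm (K : CI n) : Subgroup (Out n) := im (Gm' K)

lemma Gm'_normal (K : CI n) : (Gm' K).Normal where
  conj_mem := by
    rintro φ ⟨y, hy⟩ ψ
    have hn : K.1.Normal := by have := K.2.1; infer_instance
    refine ⟨ψ y, fun x => ?_⟩
    have h1 := (Subgroup.characteristic_iff_le_comap.1 K.2.1) ψ (hy (ψ⁻¹ x))
    have h0 : ψ (ψ⁻¹ x) = x := MulAut.apply_inv_self _ _ _
    have h2 : ψ (φ (ψ⁻¹ x) * (y * ψ⁻¹ x * y⁻¹)⁻¹) ∈ K.1 := h1
    rw [map_mul, map_inv, map_mul, map_mul, map_inv, h0] at h2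
    exact h2

instance (K : CI n) : (Gm K).Normal := by
  have := Gm'_normal K
  exact Subgroup.Normal.map this _ (QuotientGroup.mk'_surjective _)

lemma Gm_dir (K K' : CI n) : ∃ L : CI n, Gm L ≤ Gm K ∧ Gm L ≤ Gm K' := by
  have h1 := K.2.1
  have h2 := K'.2.1
  have h3 := K.2.2
  have h4 := K'.2.2
  refine ⟨⟨K.1 ⊓ K'.1, inferInstance, inferInstance⟩, Subgroup.map_mono ?_, Subgroup.map_mono ?_⟩
  · rintro φ ⟨y, hy⟩
    exact ⟨y, fun x => (hy x).1⟩
  · rintro φ ⟨y, hy⟩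
    exact ⟨y, fun x => (hy x).2⟩

/-- the elements of the group which are trivial modulo `q` and `c` -/
def KK (q c : ℕ) : Subgroup (F n) where
  carrier := {x | V q c (el x - 1)}
  one_mem' := by
    show V q c (el 1 - 1)
    rw [el_one, sub_self]
    exact V_zero _ _
  mul_mem' := by
    intro x y (hx : V q c (el x - 1)) (hy : V q c (el y - 1))
    show V q c (el (x * y) - 1)
    have e : el (x * y) - 1 = (el x - 1) * el y + (el y - 1) := by
      rw [el_mul]; noncomm_ring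
    rw [e]
    exact (hx.mul_right _).add hy
  inv_mem' := by
    intro x (hx : V q c (el x - 1))
    show V q c (el x⁻¹ - 1)
    have e : el x⁻¹ - 1 = - (el x⁻¹ * (el x - 1)) := by
      rw [mul_sub, el_inv_mul]; noncomm_ring
    rw [e]
    exact (hx.mul_left _).neg

lemma mem_KK (q c : ℕ) (x : F n) : x ∈ KK q c ↔ V q c (el x - 1) := Iff.rfl

lemma KK_char (q c : ℕ) : (KK q c : Subgroup (F n)).Characteristic := by
  rw [Subgroup.characteristic_iff_le_comap]
  intro φ x hx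
  have h1 := ((mem_KK q c x).1 hx).act φ.toMonoidHom
  rw [map_sub, map_one, act_el] at h1
  exact h1

lemma KK_fi {q : ℕ} (hq : 1 ≤ q) (c : ℕ) : (KK q c : Subgroup (F n)).FiniteIndex := by
  have : NeZero q := ⟨by omega⟩
  have hfin : Finite {L : List (Fin n) // L.length < c} := (List.finite_length_lt (Fin n) c).to_subtype
  let f : F n → ({L : List (Fin n) // L.length < c} → ZMod q) := fun x L => (cr L.1 (el x) : ZMod q)
  have hf : ∀ x y, f x = f y → x⁻¹ * y ∈ (KK q c : Subgroup (F n)) := by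
    intro x y h
    rw [mem_KK]
    have h1 : V q c (el y - el x) := by
      intro L hL
      have h2 := congrFun h ⟨L, hL⟩
      have h3 : (cr L (el x) : ZMod q) = (cr L (el y) : ZMod q) := h2
      rw [cr_sub]
      exact (ZMod.intCast_eq_intCast_iff_dvd_sub _ _ _).1 h3
    have e : el (x⁻¹ * y) - 1 = el x⁻¹ * (el y - el x) := by
      rw [el_mul, mul_sub, el_inv_mul]
    rw [e]
    exact h1.mul_left _
  have hinj : Function.Injective fun g : F n ⧸ (KK q c : Subgroup (F n)) => f g.out := by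
    intro a b hab
    have h1 := hf _ _ hab
    rw [← QuotientGroup.eq] at h1
    rw [← QuotientGroup.out_eq' a, ← QuotientGroup.out_eq' b]
    exact h1
  have hfin2 : Finite (F n ⧸ (KK q c : Subgroup (F n))) := Finite.of_injective _ hinj
  exact Subgroup.finiteIndex_of_finite_quotient

/-- the index of `KK` -/
def kI {q : ℕ} (hq : 1 ≤ q) (c : ℕ) : CI n := ⟨KK q c, KK_char q c, KK_fi hq c⟩

lemma out_Gm {K : CI n} {g : Out n} (h : g ∈ Gm K) : g.out ∈ Gm' K :=
  (mem_im_out (inn_le_Gm' K) g).1 h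

lemma Gm_kI {q : ℕ} (hq : 1 ≤ q) (c : ℕ) {φ : MulAut (F n)} (h : φ ∈ Gm' (kI hq c)) :
    ∃ y, ∀ x, V q c (el (y⁻¹ * φ x * y) - el x) := by
  obtain ⟨y, hy⟩ := h
  refine ⟨y, fun x => ?_⟩
  have h1 : V q c (el (φ x * (y * x * y⁻¹)⁻¹) - 1) := hy x
  have e : el (y⁻¹ * φ x * y) - el x =
      el y⁻¹ * (el (φ x * (y * x * y⁻¹)⁻¹) - 1) * el (y * x) := by
    have h2 : y⁻¹ * φ x * y = y⁻¹ * (φ x * (y * x * y⁻¹)⁻¹) * (y * x) := by group
    have h3 : el y⁻¹ * el (y * x) = el x := by rw [← el_mul, inv_mul_cancel_left]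
    rw [h2, el_mul, el_mul y⁻¹, mul_sub, sub_mul, mul_one, h3]
  rw [e]
  exact (h1.mul_left _).mul_right _

/-- the filtration of `Out (F_n)` -/
def Ob (d : ℕ) : Subgroup (Out n) := im (OO d)

lemma inn_le_OO (d : ℕ) : Inn n ≤ OO d := by
  rintro _ ⟨y, rfl⟩
  exact conj_mem_OO d y

lemma mem_Ob (d : ℕ) (g : Out n) : g ∈ Ob d ↔ g.out ∈ (OO d : Subgroup (MulAut (F n))) :=
  mem_im_out (inn_le_OO d) g

lemma mk_mem_Ob (d : ℕ) (φ : MulAut (F n)) : mk φ ∈ Ob d ↔ φ ∈ OO d :=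
  mem_im (inn_le_OO d) φ

/-- the Johnson homomorphism on `Out (F_n)` -/
noncomputable def tb (l0 l1 : Fin n) (d : ℕ) (g : Out n) : Fin n → (Fin d → Fin n) → ℤ :=
  tt l0 l1 d g.out

lemma tb_mul {l0 l1 : Fin n} (h01 : l0 ≠ l1) {d : ℕ} (hd : 2 ≤ d) {g h : Out n} (hg : g ∈ Ob d)
    (hh : h ∈ Ob d) : tb l0 l1 d (g * h) = tb l0 l1 d g + tb l0 l1 d h := by
  have h1 := (mem_Ob d g).1 hg
  have h2 := (mem_Ob d h).1 hh
  obtain ⟨y, hy⟩ := mk_eq (φ := g.out * h.out) (ψ := (g * h).out) (by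
    rw [mk_mul, mk_out, mk_out, mk_out])
  unfold tb
  rw [hy, tt_mul h01 hd ((OO d).mul_mem h1 h2).1 (conj_mem_OO d y).1, tt_mul h01 hd h1.1 h2.1,
    tt_of_succ h01 hd (conj_mem_OO (d + 1) y).1, add_zero]

/-- the action on the abelianization -/
noncomputable def rho (n : ℕ) : MulAut (F n) →* Matrix (Fin n) (Fin n) ℤ where
  toFun φ := Matrix.of fun i j => cr [i] (el (φ (FreeGroup.of j)))
  map_one' := by
    ext i j
    rw [Matrix.of_apply, MulAut.one_apply, cr_single_of, Matrix.one_apply]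
    simp [eq_comm]
  map_mul' φ ψ := by
    have key : ∀ (i : Fin n) (y : F n), cr [i] (el (φ y)) =
        ∑ k, cr [i] (el (φ (FreeGroup.of k))) * cr [k] (el y) := by
      intro i y
      induction y using FreeGroup.induction_on with
      | C1 =>
        rw [map_one, el_one, cr_one _ (by simp)]
        symm
        apply Finset.sum_eq_zero
        intro k _
        rw [cr_one _ (by simp), mul_zero]
      | of j =>
        simp only [cr_single_of]
        simp
      | inv_of j h =>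
        rw [map_inv, cr_single_inv, h, ← Finset.sum_neg_distrib]
        refine Finset.sum_congr rfl fun k _ => ?_
        rw [cr_single_inv, mul_neg]
      | mul x y hx hy =>
        rw [map_mul, cr_single_mul, hx, hy, ← Finset.sum_add_distrib]
        refine Finset.sum_congr rfl fun k _ => ?_
        rw [cr_single_mul, mul_add]
    ext i j
    rw [Matrix.of_apply, Matrix.mul_apply, MulAut.mul_apply, key]
    rfl

lemma rho_apply (φ : MulAut (F n)) (i j : Fin n) : rho n φ i j = cr [i] (el (φ (FreeGroup.of j))) := rfl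

lemma cr_conj (i : Fin n) (y x : F n) : cr [i] (el (y * x * y⁻¹)) = cr [i] (el x) := by
  rw [cr_single_mul, cr_single_mul, cr_single_inv]; ring

lemma inn_le_ker : Inn n ≤ (rho n).ker := by
  rintro _ ⟨y, rfl⟩
  rw [MonoidHom.mem_ker]
  ext i j
  rw [rho_apply, MulAut.conj_apply, cr_conj, cr_single_of, Matrix.one_apply]
  simp [eq_comm]

/-- the action of `Out (F_n)` on the abelianization -/
noncomputable def rhoB (n : ℕ) : Out n →* Matrix (Fin n) (Fin n) ℤ :=
  QuotientGroup.lift (Inn n) (rho n) inn_le_ker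

lemma rhoB_mk (φ : MulAut (F n)) : rhoB n (mk φ) = rho n φ := rfl

lemma rhoB_out (g : Out n) : rhoB n g = rho n g.out := by
  rw [← rhoB_mk, mk_out]

lemma W_two {φ : MulAut (F n)} (h : rho n φ = 1) : W 2 φ 1 := by
  refine ⟨by rw [sub_self]; exact V_zero _ _, gen_all fun j L hL => ?_⟩
  rw [Nat.cast_zero, zero_dvd_iff, dl, mul_one, one_mul, cr_sub]
  match L, hL with
  | [], _ => rw [cr_nil, cr_nil, aug_el, aug_el, sub_self]
  | [i], _ =>
    have h1 := congrFun (congrFun h i) j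
    rw [rho_apply, Matrix.one_apply] at h1
    rw [h1, cr_single_of]
    simp [eq_comm]
  | i :: k :: L, hL => simp only [List.length_cons] at hL; omega

lemma ker_eq : (rho n).ker = OO 2 := by
  apply le_antisymm
  · intro φ hφ
    rw [MonoidHom.mem_ker] at hφ
    refine ⟨⟨1, W_two hφ⟩, ⟨1, W_two ?_⟩⟩
    have h1 := map_mul (rho n) φ⁻¹ φ
    rw [inv_mul_cancel, map_one, hφ, mul_one] at h1
    exact h1.symm
  · rintro φ ⟨⟨g, hg⟩, _⟩
    rw [MonoidHom.mem_ker]
    ext i j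
    have h1 := hg.ia le_rfl (FreeGroup.of j) [i] (by simp)
    rw [Nat.cast_zero, zero_dvd_iff, cr_sub, sub_eq_zero] at h1
    rw [rho_apply, h1, cr_single_of, Matrix.one_apply]
    simp [eq_comm]

lemma kerB_eq : (rhoB n).ker = Ob 2 := by
  ext g
  rw [mem_Ob, ← ker_eq, MonoidHom.mem_ker, MonoidHom.mem_ker, rhoB_out]

/-- congruences for the action on the abelianization -/
lemma rho_cong {q : ℕ} (hq : 1 ≤ q) {g : Out n} (h : g ∈ Gm (kI hq 2)) :
    ∃ Y : Matrix (Fin n) (Fin n) ℤ, rhoB n g = 1 + (q : Matrix (Fin n) (Fin n) ℤ) * Y := by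
  obtain ⟨y, hy⟩ := Gm_kI hq 2 (out_Gm h)
  have h1 : ∀ i j, ∃ m : ℤ, rho n g.out i j = (1 : Matrix (Fin n) (Fin n) ℤ) i j + q * m := by
    intro i j
    have h2 := hy (FreeGroup.of j) [i] (by simp)
    have h3 : cr [i] (el (y⁻¹ * g.out (FreeGroup.of j) * y)) = rho n g.out i j := by
      have := cr_conj i y⁻¹ (g.out (FreeGroup.of j))
      rw [inv_inv] at this
      rw [this, rho_apply]
    rw [cr_sub, h3, cr_single_of] at h2
    obtain ⟨m, hm⟩ := h2
    refine ⟨m, ?_⟩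
    rw [← hm, Matrix.one_apply]
    simp [eq_comm]
  choose Y hY using h1
  refine ⟨Matrix.of Y, ?_⟩
  rw [rhoB_out]
  ext i j
  have e : ((q : Matrix (Fin n) (Fin n) ℤ) * Matrix.of Y) i j = q * Y i j := by
    rw [← nsmul_eq_mul]
    simp
  rw [hY i j, Matrix.add_apply, e]

/-- one layer -/
theorem good_layer {l0 l1 : Fin n} (h01 : l0 ≠ l1) (A : Subgroup (Out n)) {d : ℕ} (hd : 2 ≤ d)
    (h : Good (Gm (n := n)) (A ⊓ Ob (d + 1))) : Good (Gm (n := n)) (A ⊓ Ob d) := by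
  refine step Gm Gm_dir (P := Fin n → (Fin d → Fin n) → ℤ) _ _ ?_ (tb l0 l1 d) ?_ ?_ ?_ h
  · intro g hg
    refine ⟨hg.1, ?_⟩
    exact Subgroup.map_mono (OO_anti (Nat.le_succ d)) hg.2
  · intro g hg h hh
    exact tb_mul h01 hd hg.2 hh.2
  · intro g hg h0
    refine ⟨hg.1, ?_⟩
    show g ∈ Ob (d + 1)
    rw [mem_Ob]
    exact OO_succ_of_tt h01 hd ((mem_Ob d g).1 hg.2) h0
  · intro M hM
    refine ⟨kI hM (d + 1), fun g hg hgK => ?_⟩
    obtain ⟨y, hy⟩ := Gm_kI hM (d + 1) (out_Gm hgK)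
    exact tt_cong h01 hd ((mem_Ob d g).1 hg.2).1 M y hy

/-- the congruence subgroups have trivial intersection -/
theorem Gm_bot {l0 l1 : Fin n} (h01 : l0 ≠ l1) (g : Out n) (h : ∀ K, g ∈ Gm K) : g = 1 := by
  have key : ∀ d, g ∈ Ob (d + 2) := by
    intro d
    induction d with
    | zero =>
      rw [← kerB_eq, MonoidHom.mem_ker]
      ext i j
      have h1 : ∀ q : ℕ, 1 ≤ q → (q : ℤ) ∣ rhoB n g i j - (1 : Matrix (Fin n) (Fin n) ℤ) i j := by
        intro q hq
        obtain ⟨Y, hY⟩ := rho_cong hq (h (kI hq 2))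
        rw [hY, Matrix.add_apply, ← nsmul_eq_mul]
        simp
      have h2 := Int.eq_zero_of_abs_lt_dvd (h1 ((rhoB n g i j -
        (1 : Matrix (Fin n) (Fin n) ℤ) i j).natAbs + 1) (by omega)) (by
          rw [Int.abs_eq_natAbs]; push_cast; omega)
      linarith
    | succ d ih =>
      rw [mem_Ob] at ih ⊢
      apply OO_succ_of_tt h01 (by omega) ih
      funext j f
      have h1 : ∀ q : ℕ, 1 ≤ q → (q : ℤ) ∣ tt l0 l1 (d + 2) g.out j f := by
        intro q hq
        obtain ⟨y, hy⟩ := Gm_kI hq (d + 2 + 1) (out_Gm (h (kI hq (d + 2 + 1))))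
        obtain ⟨p, hp⟩ := tt_cong h01 (by omega) ih.1 q y hy
        rw [hp]
        simp
      have h2 := Int.eq_zero_of_abs_lt_dvd (h1 ((tt l0 l1 (d + 2) g.out j f).natAbs + 1) (by omega)) (by
          rw [Int.abs_eq_natAbs]; push_cast; omega)
      exact h2
  obtain ⟨y, hy⟩ := inner_of_W h01 (φ := g.out) (fun d => by
    obtain ⟨g', hg'⟩ := ((mem_Ob (d + 2) g).1 (key d)).1
    exact ⟨g', hg'.mono (by omega)⟩)
  rw [← mk_out g, hy, mk_conj]

/-- abelian subgroups -/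
theorem good_abelian {l0 l1 : Fin n} (h01 : l0 ≠ l1) (A : Subgroup (Out n)) (hfg : A.FG)
    (hcomm : ∀ a ∈ A, ∀ b ∈ A, a * b = b * a) : Good (Gm (n := n)) A := by
  obtain ⟨c, hc⟩ := term_lemma A hfg hcomm (fun i => Ob (i + 2))
    (fun i => Subgroup.map_mono (OO_anti (Nat.le_succ _)))
    (fun i g _ hg k hk hgk => by
      rw [mem_Ob] at hg ⊢
      refine OO_pure h01 (by omega) hg k hk ?_
      rw [← mk_mem_Ob]
      have : mk (g.out ^ k) = g ^ k := by
        have h1 : mk (g.out ^ k) = (mk g.out) ^ k := rfl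
        rw [h1, mk_out]
      rw [this]
      exact hgk)
    (fun g hg => by
      obtain ⟨y, hy⟩ := inner_of_W h01 (φ := g.out) (fun d => by
        obtain ⟨g', hg'⟩ := ((mem_Ob (d + 2) g).1 (hg d)).1
        exact ⟨g', hg'.mono (by omega)⟩)
      rw [← mk_out g, hy, mk_conj])
  have hne : Nonempty (CI n) := ⟨kI le_rfl 0⟩
  have h1 : ∀ c, Good (Gm (n := n)) (A ⊓ Ob (c + 2)) → Good (Gm (n := n)) (A ⊓ Ob 2) := by
    intro c
    induction c with
    | zero => exact id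
    | succ c ih => exact fun h => ih (good_layer h01 A (by omega) h)
  have h2 := h1 c (good_of_le hc.le)
  refine linear_sub Gm Gm_dir n (rhoB n) A (fun g hg h hh => ?_) (fun q hq => ?_) ?_
  · rw [← map_mul, ← map_mul, hcomm g hg h hh]
  · exact ⟨kI hq 2, fun g hg => rho_cong hq hg⟩
  · rw [kerB_eq]
    exact h2

/-- **virtually abelian subgroups of `Out (F_n)`** -/
theorem good_virt {l0 l1 : Fin n} (h01 : l0 ≠ l1) (H A : Subgroup (Out n)) (hAH : A ≤ H)
    (hi : A.relIndex H ≠ 0) (hfg : A.FG) (hcomm : ∀ a ∈ A, ∀ b ∈ A, a * b = b * a) :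
    Good (Gm (n := n)) H := by
  have hne : Nonempty (CI n) := ⟨kI le_rfl 0⟩
  exact virt Gm Gm_dir (fun K => inferInstance) (Gm_bot h01) (good_abelian h01) H A hAH hi hfg hcomm

end Pool.Agent.H19W.CB
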